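import Pool.Agent.H651R2.CB.Defs

set_option autoImplicit false

/-! Task CO: expectations of the product test function. -/

namespace H651CB

theorem co_sum_prod {n : ℕ} (φ : Fin n → ℤˣ → ℂ) :
    ∑ x : Cube n, ∏ k, φ k (x k) = ∏ k, (φ k 1 + φ k (-1)) := by
  have h : ∀ k, φ k 1 + φ k (-1) = ∑ y ∈ (Finset.univ : Finset ℤˣ), φ k y := by
    intro k
    rw [UnitsInt.univ, Finset.sum_pair (by decide)]
  rw [Finset.prod_congr rfl (fun k _ => h k), Finset.prod_univ_sum]
  rw [Fintype.piFinset_univ]

theorem co_exp {n : ℕ} (t : Fin n → ℝ) (x : Cube n) :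
    Complex.exp (((∑ k, t k * sg x k : ℝ) : ℂ) * Complex.I) =
      ∏ k, Complex.exp ((t k : ℂ) * ((x k : ℤ) : ℂ) * Complex.I) := by
  rw [← Complex.exp_sum, ← Finset.sum_mul]
  congr 2
  push_cast [sg]
  rfl

theorem co_cos (a : ℝ) : Complex.exp ((a : ℂ) * ((1 : ℤˣ) : ℤ) * Complex.I) +
    Complex.exp ((a : ℂ) * ((-1 : ℤˣ) : ℤ) * Complex.I) = 2 * (Real.cos a : ℂ) := by
  rw [Complex.ofReal_cos, Complex.cos]
  push_cast
  simp only [Units.val_one, Units.val_neg, Int.cast_one, Int.cast_neg, mul_one, mul_neg]
  ring_nf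

theorem co_sin (a : ℝ) : Complex.exp ((a : ℂ) * ((1 : ℤˣ) : ℤ) * Complex.I) -
    Complex.exp ((a : ℂ) * ((-1 : ℤˣ) : ℤ) * Complex.I) = 2 * (Real.sin a : ℂ) * Complex.I := by
  rw [Complex.ofReal_sin, Complex.sin]
  simp only [Units.val_one, Units.val_neg, Int.cast_one, Int.cast_neg, mul_one, mul_neg]
  have : Complex.I * Complex.I = -1 := Complex.I_mul_I
  linear_combination (Complex.exp ((a:ℂ) * Complex.I) - Complex.exp (-(a:ℂ) * Complex.I)) * this

theorem co_re {n : ℕ} (F : Cube n → ℝ) (t : Fin n → ℝ) :
    ((∑ x : Cube n, (F x : ℂ) * Complex.exp (((∑ k, t k * sg x k : ℝ) : ℂ) * Complex.I))).re =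
      ∑ x : Cube n, F x * Real.cos (∑ k, t k * sg x k) := by
  rw [Complex.re_sum]
  refine Finset.sum_congr rfl (fun x _ => ?_)
  rw [Complex.re_ofReal_mul, Complex.exp_ofReal_mul_I_re]

theorem t_CO : S_CO := by
  intro n t
  have h2 : (2:ℝ) ^ n ≠ 0 := by positivity
  refine ⟨?_, ?_⟩
  · have h1 : (∑ x : Cube n, (((1:ℝ)) : ℂ) *
        Complex.exp (((∑ k, t k * sg x k : ℝ) : ℂ) * Complex.I)) =
        (((2:ℝ) ^ n * ∏ k, Real.cos (t k) : ℝ) : ℂ) := by
      calc (∑ x : Cube n, (((1:ℝ)) : ℂ) *
            Complex.exp (((∑ k, t k * sg x k : ℝ) : ℂ) * Complex.I))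
          = ∑ x : Cube n, ∏ k, Complex.exp ((t k : ℂ) * ((x k : ℤ) : ℂ) * Complex.I) := by
            refine Finset.sum_congr rfl (fun x _ => ?_)
            rw [co_exp, Complex.ofReal_one, one_mul]
        _ = ∏ k, (2 * (Real.cos (t k) : ℂ)) := by
            rw [co_sum_prod (fun k y => Complex.exp ((t k : ℂ) * ((y : ℤ) : ℂ) * Complex.I))]
            exact Finset.prod_congr rfl (fun k _ => co_cos (t k))
        _ = _ := by
            rw [Finset.prod_mul_distrib, Finset.prod_const, Finset.card_univ, Fintype.card_fin]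
            push_cast
            rfl
    have h3 := congrArg Complex.re h1
    rw [co_re (fun _ => 1) t, Complex.ofReal_re] at h3
    unfold ex
    simp only [one_mul] at h3
    rw [h3, inv_mul_cancel_left₀ h2]
  · intro i j hij
    have h1 : (∑ x : Cube n, ((sg x i * sg x j : ℝ) : ℂ) *
        Complex.exp (((∑ k, t k * sg x k : ℝ) : ℂ) * Complex.I)) =
        ((-((2:ℝ) ^ n * (Real.sin (t i) * Real.sin (t j) *
          ∏ k ∈ (Finset.univ.erase i).erase j, Real.cos (t k))) : ℝ) : ℂ) := by
      have hi : ∀ x : Cube n, ((sg x i * sg x j : ℝ) : ℂ) =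
          ∏ k, (if k = i ∨ k = j then ((x k : ℤ) : ℂ) else 1) := by
        intro x
        rw [← Finset.mul_prod_erase Finset.univ _ (Finset.mem_univ i),
          ← Finset.mul_prod_erase (Finset.univ.erase i) _
            (Finset.mem_erase.2 ⟨hij.symm, Finset.mem_univ j⟩)]
        rw [if_pos (Or.inl rfl), if_pos (Or.inr rfl), Finset.prod_eq_one]
        · push_cast [sg]
          ring
        · intro k hk
          simp only [Finset.mem_erase, Finset.mem_univ, and_true] at hk
          rw [if_neg (by tauto)]
      calc (∑ x : Cube n, ((sg x i * sg x j : ℝ) : ℂ) *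
            Complex.exp (((∑ k, t k * sg x k : ℝ) : ℂ) * Complex.I))
          = ∑ x : Cube n, ∏ k, ((if k = i ∨ k = j then ((x k : ℤ) : ℂ) else 1) *
              Complex.exp ((t k : ℂ) * ((x k : ℤ) : ℂ) * Complex.I)) := by
            refine Finset.sum_congr rfl (fun x _ => ?_)
            rw [hi, co_exp, ← Finset.prod_mul_distrib]
        _ = ∏ k, (if k = i ∨ k = j then 2 * (Real.sin (t k) : ℂ) * Complex.I
              else 2 * (Real.cos (t k) : ℂ)) := by
            rw [co_sum_prod (fun k y => (if k = i ∨ k = j then ((y : ℤ) : ℂ) else 1) *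
              Complex.exp ((t k : ℂ) * ((y : ℤ) : ℂ) * Complex.I))]
            refine Finset.prod_congr rfl (fun k _ => ?_)
            split_ifs with h
            · rw [← co_sin]
              push_cast
              ring
            · rw [one_mul, one_mul]
              exact co_cos (t k)
        _ = (2 * (Real.sin (t i) : ℂ) * Complex.I) * ((2 * (Real.sin (t j) : ℂ) * Complex.I) *
              ∏ k ∈ (Finset.univ.erase i).erase j, (2 * (Real.cos (t k) : ℂ))) := by
            rw [← Finset.mul_prod_erase Finset.univ _ (Finset.mem_univ i),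
              ← Finset.mul_prod_erase (Finset.univ.erase i) _
                (Finset.mem_erase.2 ⟨hij.symm, Finset.mem_univ j⟩)]
            rw [if_pos (Or.inl rfl), if_pos (Or.inr rfl)]
            congr 2
            refine Finset.prod_congr rfl (fun k hk => ?_)
            simp only [Finset.mem_erase, Finset.mem_univ, and_true] at hk
            rw [if_neg (by tauto)]
        _ = _ := by
            have hcard : ((Finset.univ.erase i).erase j : Finset (Fin n)).card + 2 = n := by
              have e1 := Finset.card_erase_add_one (Finset.mem_univ i)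
              have e2 := Finset.card_erase_add_one
                (Finset.mem_erase.2 ⟨hij.symm, Finset.mem_univ j⟩ : j ∈ Finset.univ.erase i)
              rw [Finset.card_univ, Fintype.card_fin] at e1
              omega
            rw [Finset.prod_mul_distrib, Finset.prod_const]
            have hp : (2:ℂ) ^ n = 2 ^ ((Finset.univ.erase i).erase j : Finset (Fin n)).card * 4 := by
              conv_lhs => rw [← hcard]
              rw [pow_add]
              norm_num
            push_cast
            rw [hp]
            linear_combination (4 * Complex.sin (t i) * Complex.sin (t j) *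
              2 ^ ((Finset.univ.erase i).erase j : Finset (Fin n)).card *
              ∏ k ∈ (Finset.univ.erase i).erase j, Complex.cos (t k)) * Complex.I_mul_I
    have h3 := congrArg Complex.re h1
    rw [co_re (fun x => sg x i * sg x j) t, Complex.ofReal_re] at h3
    unfold ex
    rw [h3]
    rw [mul_neg, inv_mul_cancel_left₀ h2]

end H651CB
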