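import Pool.Agent.H651R2.CB.Defs

set_option autoImplicit false

namespace H651CB

theorem dv_cs {n : ℕ} (A : Fin n → Fin n → ℝ) (u : Fin n → ℝ) (mu : ℝ) (hA : SymZ A)
    (hu : ∑ i, u i ^ 2 = 1) (he : ∀ i, ∑ j, A i j * u j = mu * u i) (i : Fin n) :
    mu ^ 2 * u i ^ 2 ≤ infl A i * (1 - u i ^ 2) := by
  classical
  have h1 : mu * u i = ∑ j ∈ Finset.univ.erase i, A i j * u j := by
    rw [← he i, ← Finset.add_sum_erase _ _ (Finset.mem_univ i), hA.2 i, zero_mul, zero_add]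
  have h2 : infl A i = ∑ j ∈ Finset.univ.erase i, A i j ^ 2 := by
    unfold infl
    rw [← Finset.add_sum_erase _ _ (Finset.mem_univ i), hA.2 i]
    simp
  have h3 : 1 - u i ^ 2 = ∑ j ∈ Finset.univ.erase i, u j ^ 2 := by
    rw [← hu, ← Finset.add_sum_erase _ _ (Finset.mem_univ i)]
    ring
  rw [← mul_pow, h1, h2, h3]
  exact Finset.sum_mul_sq_le_sq_mul_sq _ _ _

theorem t_DV : S_DV := by
  intro n A u mu hA hsum hI hu he
  have hcs := dv_cs A u mu hA hu he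
  have hI0 : ∀ i, 0 ≤ infl A i := fun i => Finset.sum_nonneg (fun j _ => sq_nonneg _)
  have hu1 : ∀ i, u i ^ 2 ≤ 1 := by
    intro i
    rw [← hu]
    exact Finset.single_le_sum (f := fun i => u i ^ 2) (fun j _ => sq_nonneg _) (Finset.mem_univ i)
  refine ⟨fun i => ?_, ?_⟩
  · have h1 := hcs i
    have h2 := hI i
    have h3 := hu1 i
    nlinarith [mul_le_mul_of_nonneg_right h2 (sub_nonneg.2 h3)]
  · have hR : ∀ i, infl A i * u i ^ 2 ≤ infl A i - mu ^ 2 * u i ^ 2 := by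
      intro i
      have h1 := hcs i
      linarith [h1]
    have hsI : ∑ i, infl A i = 2 := hsum
    have hsR : ∑ i, (infl A i - mu ^ 2 * u i ^ 2) = 2 - mu ^ 2 := by
      rw [Finset.sum_sub_distrib, ← Finset.mul_sum, hu, hsI, mul_one]
    have h1 : ∑ i, infl A i * u i ^ 2 ≤ 2 - mu ^ 2 := by
      rw [← hsR]
      exact Finset.sum_le_sum (fun i _ => hR i)
    have h2 : ∀ i, infl A i ^ 2 ≤ mu ^ 2 * (infl A i * u i ^ 2) +
        1 / 2 * (infl A i - mu ^ 2 * u i ^ 2) := by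
      intro i
      have h3 : 0 ≤ infl A i - mu ^ 2 * u i ^ 2 :=
        le_trans (mul_nonneg (hI0 i) (sq_nonneg _)) (hR i)
      have h4 := mul_le_mul_of_nonneg_right (hI i) h3
      nlinarith [h4]
    calc ∑ i, infl A i ^ 2 ≤ ∑ i, (mu ^ 2 * (infl A i * u i ^ 2) +
        1 / 2 * (infl A i - mu ^ 2 * u i ^ 2)) := Finset.sum_le_sum (fun i _ => h2 i)
      _ = mu ^ 2 * ∑ i, infl A i * u i ^ 2 + 1 / 2 * (2 - mu ^ 2) := by
          rw [Finset.sum_add_distrib, ← Finset.mul_sum, ← Finset.mul_sum, hsR]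
      _ ≤ mu ^ 2 * (2 - mu ^ 2) + 1 / 2 * (2 - mu ^ 2) := by
          have := mul_le_mul_of_nonneg_left h1 (sq_nonneg mu)
          linarith
      _ = (mu ^ 2 + 1 / 2) * (2 - mu ^ 2) := by ring

end H651CB
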