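import Pool.Agent.H651R2.CB.Defs
set_option autoImplicit false

/-!
# EN: the energy inequality
-/

namespace H651CB.EN

lemma sg_mul_self {n : ℕ} (x : Cube n) (i : Fin n) : sg x i * sg x i = 1 := by
  rcases Int.units_eq_one_or (x i) with h | h <;> simp [sg, h]

lemma sg_sq {n : ℕ} (x : Cube n) (i : Fin n) : sg x i ^ 2 = 1 := by
  rw [sq]; exact sg_mul_self x i

/-- flipping the `i`-th coordinate -/
def flp {n : ℕ} (i : Fin n) (x : Cube n) : Cube n := Function.update x i (-(x i))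

lemma flp_flp {n : ℕ} (i : Fin n) (x : Cube n) : flp i (flp i x) = x := by
  funext j
  by_cases h : j = i
  · subst h; simp [flp]
  · simp [flp, h]

def flpEquiv {n : ℕ} (i : Fin n) : Cube n ≃ Cube n :=
  ⟨flp i, flp i, flp_flp i, flp_flp i⟩

lemma sum_flp {n : ℕ} (i : Fin n) (h : Cube n → ℝ) : ∑ x, h (flp i x) = ∑ x, h x :=
  Equiv.sum_comp (flpEquiv i) h

lemma sg_flp {n : ℕ} (i j : Fin n) (x : Cube n) :
    sg (flp i x) j = (if j = i then -1 else 1) * sg x j := by
  by_cases h : j = i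
  · subst h; simp [flp, sg]
  · simp [flp, sg, h]


lemma lin_flp {n : ℕ} (v : Fin n → ℝ) (i : Fin n) (x : Cube n) :
    lin v (flp i x) = lin v x - 2 * (v i * sg x i) := by
  unfold lin
  have : ∀ j, v j * sg (flp i x) j = v j * sg x j - (if j = i then 2 * (v i * sg x i) else 0) := by
    intro j
    rw [sg_flp]
    by_cases h : j = i
    · subst h; simp; ring
    · simp [h]
  simp_rw [this]
  rw [Finset.sum_sub_distrib]
  simp


/-- flips change `s` into `s - 2 y_i` with `∑ y_i = s`, `∑ y_i^2 = σ^2`. -/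
lemma sum_y {n : ℕ} (v : Fin n → ℝ) (x : Cube n) : ∑ i, v i * sg x i = lin v x := rfl

lemma sum_y_sq {n : ℕ} (v : Fin n → ℝ) (x : Cube n) :
    ∑ i, (v i * sg x i) ^ 2 = ∑ i, v i ^ 2 := by
  apply Finset.sum_congr rfl
  intro i _
  rw [mul_pow, sg_sq, mul_one]


lemma sq_lin {n : ℕ} (v : Fin n → ℝ) (x : Cube n) :
    ∑ i, (lin v x ^ 2 - lin v (flp i x) ^ 2) = 4 * lin v x ^ 2 - 4 * ∑ i, v i ^ 2 := by
  have h1 : ∀ i, lin v x ^ 2 - lin v (flp i x) ^ 2
      = 4 * lin v x * (v i * sg x i) - 4 * (v i * sg x i) ^ 2 := by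
    intro i
    rw [lin_flp]; ring
  simp_rw [h1]
  rw [Finset.sum_sub_distrib, ← Finset.mul_sum, ← Finset.mul_sum, sum_y, sum_y_sq]
  ring


lemma qd_flp {n : ℕ} (G : Fin n → Fin n → ℝ) (hs : ∀ i j, G i j = G j i) (hd : ∀ i, G i i = 0)
    (i : Fin n) (x : Cube n) : qd G (flp i x) = qd G x - 2 * (sg x i * lin (G i) x) := by
  have h1 : ∀ a b, G a b * (sg (flp i x) a * sg (flp i x) b) = G a b * (sg x a * sg x b)
      - (if a = i then 2 * (sg x i * (G i b * sg x b)) else 0)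
      - (if b = i then 2 * (sg x i * (G i a * sg x a)) else 0) := by
    intro a b
    rw [sg_flp, sg_flp]
    by_cases ha : a = i
    · subst ha
      by_cases hb : b = a
      · subst hb; simp [hd]
      · simp [hb]; ring
    · by_cases hb : b = i
      · subst hb; simp [ha, hs a b]; ring
      · simp [ha, hb]
  unfold qd
  simp_rw [h1, Finset.sum_sub_distrib]
  have h2 : ∑ a, ∑ b, (if a = i then 2 * (sg x i * (G i b * sg x b)) else 0)
      = 2 * (sg x i * lin (G i) x) := by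
    rw [Finset.sum_eq_single i]
    · simp only [if_true, lin]
      rw [Finset.mul_sum, Finset.mul_sum]
    · intro a _ ha; simp [ha]
    · simp
  have h3 : ∑ a, ∑ b, (if b = i then 2 * (sg x i * (G i a * sg x a)) else 0)
      = 2 * (sg x i * lin (G i) x) := by
    simp only [Finset.sum_ite_eq', Finset.mem_univ, if_true, lin]
    rw [Finset.mul_sum, Finset.mul_sum]
  rw [h2, h3]; ring

lemma qd_eq {n : ℕ} (G : Fin n → Fin n → ℝ) (x : Cube n) :
    ∑ i, sg x i * lin (G i) x = 2 * qd G x := by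
  unfold qd lin
  have : ∀ i, sg x i * ∑ j, G i j * sg x j = ∑ j, G i j * (sg x i * sg x j) := by
    intro i
    rw [Finset.mul_sum]
    exact Finset.sum_congr rfl (fun j _ => by ring)
  simp_rw [this]; ring


/-- Walsh functions -/
def wal {n : ℕ} (S : Finset (Fin n)) (x : Cube n) : ℝ := ∏ i ∈ S, sg x i

lemma prod_one_add_sg {n : ℕ} (x y : Cube n) :
    ∏ i, (1 + sg x i * sg y i) = if x = y then (2 : ℝ) ^ n else 0 := by
  split_ifs with h
  · subst h
    have : ∀ i, 1 + sg x i * sg x i = 2 := by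
      intro i; rw [sg_mul_self]; norm_num
    simp [this]
  · obtain ⟨i, hi⟩ := Function.ne_iff.1 h
    apply Finset.prod_eq_zero (Finset.mem_univ i)
    rcases Int.units_eq_one_or (x i) with h1 | h1 <;> rcases Int.units_eq_one_or (y i) with h2 | h2
    · exact absurd (h1.trans h2.symm) hi
    · simp [sg, h1, h2]
    · simp [sg, h1, h2]
    · exact absurd (h1.trans h2.symm) hi

lemma sum_wal {n : ℕ} (x y : Cube n) :
    ∑ S : Finset (Fin n), wal S x * wal S y = if x = y then (2 : ℝ) ^ n else 0 := by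
  rw [← prod_one_add_sg, Finset.prod_one_add]
  rw [Finset.powerset_univ]
  apply Finset.sum_congr rfl
  intro S _
  rw [wal, wal, ← Finset.prod_mul_distrib]

/-- Walsh coefficient (unnormalised) -/
def coef {n : ℕ} (f : Cube n → ℝ) (S : Finset (Fin n)) : ℝ := ∑ x, f x * wal S x

lemma parseval {n : ℕ} (f g : Cube n → ℝ) :
    ∑ S, coef f S * coef g S = 2 ^ n * ∑ x, f x * g x := by
  unfold coef
  simp_rw [Finset.sum_mul_sum]
  rw [Finset.sum_comm]
  have h1 : ∀ x, ∑ S, ∑ y, f x * wal S x * (g y * wal S y) = 2 ^ n * (f x * g x) := by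
    intro x
    rw [Finset.sum_comm]
    have h2 : ∀ y, ∑ S, f x * wal S x * (g y * wal S y)
        = f x * g y * (if x = y then (2 : ℝ) ^ n else 0) := by
      intro y
      rw [← sum_wal, Finset.mul_sum]
      exact Finset.sum_congr rfl (fun S _ => by ring)
    simp_rw [h2]
    simp; ring
  simp_rw [h1]
  rw [Finset.mul_sum]

lemma wal_flp {n : ℕ} (i : Fin n) (S : Finset (Fin n)) (x : Cube n) :
    wal S (flp i x) = (if i ∈ S then -1 else 1) * wal S x := by
  unfold wal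
  simp_rw [sg_flp]
  rw [Finset.prod_mul_distrib]
  congr 1
  simp [Finset.prod_ite_eq']

lemma coef_flp {n : ℕ} (f : Cube n → ℝ) (i : Fin n) (S : Finset (Fin n)) :
    coef (fun x => f (flp i x)) S = (if i ∈ S then -1 else 1) * coef f S := by
  unfold coef
  rw [← sum_flp i, Finset.mul_sum]
  apply Finset.sum_congr rfl
  intro x _
  simp only [flp_flp, wal_flp]; ring

lemma energy {n : ℕ} (f : Cube n → ℝ) :
    2 ^ n * ∑ x, f x * ∑ i, (f x - f (flp i x)) = ∑ S, 2 * (S.card : ℝ) * coef f S ^ 2 := by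
  have h1 : ∀ i, 2 ^ n * ∑ x, f x * (f x - f (flp i x))
      = ∑ S, (if i ∈ S then 2 else 0) * coef f S ^ 2 := by
    intro i
    have h2 : ∑ x, f x * (f x - f (flp i x)) = ∑ x, f x * f x - ∑ x, f x * f (flp i x) := by
      rw [← Finset.sum_sub_distrib]
      exact Finset.sum_congr rfl (fun x _ => by ring)
    rw [h2, mul_sub, ← parseval f f, ← parseval f (fun x => f (flp i x)),
      ← Finset.sum_sub_distrib]
    apply Finset.sum_congr rfl
    intro S _
    rw [coef_flp]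
    split_ifs <;> ring
  have h3 : ∑ x, f x * ∑ i, (f x - f (flp i x)) = ∑ i, ∑ x, f x * (f x - f (flp i x)) := by
    simp_rw [Finset.mul_sum]
    exact Finset.sum_comm
  rw [h3, Finset.mul_sum]
  simp_rw [h1]
  rw [Finset.sum_comm]
  apply Finset.sum_congr rfl
  intro S _
  rw [← Finset.sum_mul]
  congr 1
  simp [Finset.sum_ite_mem, mul_comm]

lemma sg_neg {n : ℕ} (x : Cube n) (i : Fin n) : sg (-x) i = - sg x i := by
  simp [sg]

lemma wal_neg {n : ℕ} (S : Finset (Fin n)) (x : Cube n) :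
    wal S (-x) = (-1) ^ S.card * wal S x := by
  unfold wal
  simp_rw [sg_neg]
  rw [Finset.prod_neg]

lemma coef_odd {n : ℕ} (f : Cube n → ℝ) (hf : ∀ x, f (-x) = f x) (S : Finset (Fin n))
    (hS : Odd S.card) : coef f S = 0 := by
  have h1 : coef f S = - coef f S := by
    conv_lhs => rw [coef, ← Equiv.sum_comp (Equiv.neg (Cube n))]
    rw [coef, ← Finset.sum_neg_distrib]
    apply Finset.sum_congr rfl
    intro x _
    rw [Equiv.neg_apply, hf, wal_neg, hS.neg_one_pow]; ring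
  linarith


/-- level-2 coefficients -/
noncomputable def lev {n : ℕ} (ρ : Cube n → ℝ) (i j : Fin n) : ℝ :=
  if i = j then 0 else ∑ x, ρ x * (sg x i * sg x j)

/-- energy and Walsh levels, for even functions. -/
lemma energy_low {n : ℕ} {ρ : Cube n → ℝ} (he : ∀ x, ρ (-x) = ρ x) :
    8 * (2 ^ n * ∑ x, ρ x ^ 2) ≤ 2 ^ n * ∑ x, ρ x * ∑ i, (ρ x - ρ (flp i x))
      + 8 * (∑ x, ρ x) ^ 2 + 2 * ∑ i, ∑ j, lev ρ i j ^ 2 := by
  rw [energy]
  have hp : 2 ^ n * ∑ x, ρ x ^ 2 = ∑ S, coef ρ S ^ 2 := by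
    have := parseval ρ ρ
    simp_rw [← sq] at this
    exact this.symm
  have hpair : ∀ S : Finset (Fin n), S.card = 2 →
      2 ≤ ∑ i, ∑ j, (if i ≠ j ∧ S = {i, j} then (1 : ℝ) else 0) := by
    intro S hS
    obtain ⟨a, b, hab, rfl⟩ := Finset.card_eq_two.1 hS
    have e1 : (1 : ℝ) ≤ ∑ j, (if a ≠ j ∧ ({a, b} : Finset (Fin n)) = {a, j} then (1 : ℝ) else 0) := by
      have := Finset.single_le_sum (f := fun j => (if a ≠ j ∧ ({a, b} : Finset (Fin n)) = {a, j}
        then (1 : ℝ) else 0)) (fun j _ => by positivity) (Finset.mem_univ b)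
      simpa [hab] using this
    have e2 : (1 : ℝ) ≤ ∑ j, (if b ≠ j ∧ ({a, b} : Finset (Fin n)) = {b, j} then (1 : ℝ) else 0) := by
      have := Finset.single_le_sum (f := fun j => (if b ≠ j ∧ ({a, b} : Finset (Fin n)) = {b, j}
        then (1 : ℝ) else 0)) (fun j _ => by positivity) (Finset.mem_univ a)
      simpa [hab.symm, Finset.pair_comm] using this
    have e3 := Finset.add_le_sum (s := Finset.univ) (f := fun i => ∑ j, (if i ≠ j ∧
      ({a, b} : Finset (Fin n)) = {i, j} then (1 : ℝ) else 0))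
      (fun i _ => Finset.sum_nonneg (fun j _ => by positivity)) (Finset.mem_univ a)
      (Finset.mem_univ b) hab
    linarith
  have hkey : ∀ S : Finset (Fin n), coef ρ S ^ 2 ≤
      1 / 4 * (2 * (S.card : ℝ) * coef ρ S ^ 2 - 4 * coef ρ S ^ 2)
        + 2 * (if S = ∅ then coef ρ S ^ 2 else 0)
        + 1 / 2 * ∑ i, ∑ j, (if i ≠ j ∧ S = {i, j} then coef ρ S ^ 2 else 0) := by
    intro S
    have hnn : 0 ≤ coef ρ S ^ 2 := sq_nonneg _
    have hnn2 : 0 ≤ ∑ i, ∑ j, (if i ≠ j ∧ S = {i, j} then coef ρ S ^ 2 else 0) :=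
      Finset.sum_nonneg (fun i _ => Finset.sum_nonneg (fun j _ => by positivity))
    rcases Nat.even_or_odd S.card with hS | hS
    · rcases Nat.lt_or_ge S.card 4 with h4 | h4
      · have h02 : S.card = 0 ∨ S.card = 2 := by
          rcases hS with ⟨k, hk⟩; omega
        rcases h02 with h0 | h0
        · have : S = ∅ := Finset.card_eq_zero.1 h0
          rw [if_pos this, h0]
          push_cast
          nlinarith
        · have e1 : ∑ i, ∑ j, (if i ≠ j ∧ S = {i, j} then coef ρ S ^ 2 else 0)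
              = (∑ i, ∑ j, (if i ≠ j ∧ S = {i, j} then (1 : ℝ) else 0)) * coef ρ S ^ 2 := by
            rw [Finset.sum_mul]
            apply Finset.sum_congr rfl
            intro i _
            rw [Finset.sum_mul]
            apply Finset.sum_congr rfl
            intro j _
            split_ifs <;> simp
          have e2 := mul_le_mul_of_nonneg_right (hpair S h0) hnn
          have e3 : 0 ≤ (if S = ∅ then coef ρ S ^ 2 else 0) := by positivity
          rw [e1, h0]
          push_cast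
          nlinarith
      · have h4' : (4 : ℝ) ≤ S.card := by exact_mod_cast h4
        have e3 : 0 ≤ (if S = ∅ then coef ρ S ^ 2 else 0) := by positivity
        nlinarith [mul_le_mul_of_nonneg_right h4' hnn]
    · have : coef ρ S = 0 := coef_odd ρ he S hS
      simp [this]
  have hsum := Finset.sum_le_sum (s := Finset.univ) (fun S _ => hkey S)
  rw [Finset.sum_add_distrib, Finset.sum_add_distrib, ← Finset.mul_sum, ← Finset.mul_sum,
    ← Finset.mul_sum, Finset.sum_sub_distrib, ← Finset.mul_sum] at hsum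
  have h0 : ∑ S : Finset (Fin n), (if S = ∅ then coef ρ S ^ 2 else 0) = (∑ x, ρ x) ^ 2 := by
    rw [Finset.sum_ite_eq']
    simp [coef, wal]
  have h22 : ∑ S : Finset (Fin n), ∑ i, ∑ j, (if i ≠ j ∧ S = {i, j} then coef ρ S ^ 2 else 0)
      = ∑ i, ∑ j, lev ρ i j ^ 2 := by
    rw [Finset.sum_comm]
    apply Finset.sum_congr rfl
    intro i _
    rw [Finset.sum_comm]
    apply Finset.sum_congr rfl
    intro j _
    by_cases hij : i = j
    · simp [hij, lev]
    · rw [Finset.sum_eq_single {i, j}]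
      · rw [if_pos ⟨hij, rfl⟩]
        simp [coef, wal, lev, hij, Finset.prod_pair hij]
      · intro S _ hS
        rw [if_neg (fun hc => hS hc.2)]
      · simp
  rw [h0, h22, ← hp] at hsum
  linarith

lemma card_cube (n : ℕ) : (Finset.univ : Finset (Cube n)).card = 2 ^ n := by
  rw [Finset.card_univ]
  simp [Fintype.card_units_int]

lemma sum_lin_sq {n : ℕ} (v : Fin n → ℝ) :
    ∑ x : Cube n, lin v x ^ 2 = 2 ^ n * ∑ i, v i ^ 2 := by
  have h1 : ∑ x : Cube n, ∑ i, (lin v x ^ 2 - lin v (flp i x) ^ 2) = 0 := by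
    rw [Finset.sum_comm]
    apply Finset.sum_eq_zero
    intro i _
    rw [Finset.sum_sub_distrib, sum_flp i (fun x => lin v x ^ 2), sub_self]
  simp_rw [sq_lin] at h1
  rw [Finset.sum_sub_distrib, ← Finset.mul_sum, Finset.sum_const, card_cube, nsmul_eq_mul] at h1
  push_cast at h1
  linarith

lemma qd_kato {n : ℕ} (A : Fin n → Fin n → ℝ) (hA : SymZ A) (x : Cube n) :
    ∑ i, (qd A x - qd A (flp i x)) = 4 * qd A x := by
  simp_rw [qd_flp A hA.1 hA.2]
  simp_rw [sub_sub_cancel]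
  rw [← Finset.mul_sum, qd_eq]
  ring

lemma sum_qd {n : ℕ} (A : Fin n → Fin n → ℝ) (hA : SymZ A) : ∑ x : Cube n, qd A x = 0 := by
  have h1 : ∑ x : Cube n, ∑ i, (qd A x - qd A (flp i x)) = 0 := by
    rw [Finset.sum_comm]
    apply Finset.sum_eq_zero
    intro i _
    rw [Finset.sum_sub_distrib, sum_flp i (fun x => qd A x), sub_self]
  simp_rw [qd_kato A hA] at h1
  rw [← Finset.mul_sum] at h1
  linarith

lemma sum_self_diff {n : ℕ} (h : Cube n → ℝ) (i : Fin n) :
    ∑ x, h x * (h x - h (flp i x)) = 1 / 2 * ∑ x, (h x - h (flp i x)) ^ 2 := by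
  have h1 : ∑ x, (h x - h (flp i x)) ^ 2 =
      ∑ x, h x ^ 2 - 2 * ∑ x, h x * h (flp i x) + ∑ x, h (flp i x) ^ 2 := by
    rw [Finset.mul_sum, ← Finset.sum_sub_distrib, ← Finset.sum_add_distrib]
    exact Finset.sum_congr rfl fun x _ => by ring
  have h2 : ∑ x, h (flp i x) ^ 2 = ∑ x, h x ^ 2 := sum_flp i (fun x => h x ^ 2)
  have h3 : ∑ x, h x * (h x - h (flp i x)) = ∑ x, h x ^ 2 - ∑ x, h x * h (flp i x) := by
    rw [← Finset.sum_sub_distrib]
    exact Finset.sum_congr rfl fun x _ => by ring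
  rw [h1, h2, h3]
  ring

lemma sum_qd_sq {n : ℕ} (A : Fin n → Fin n → ℝ) (hA : SymZ A) :
    ∑ x : Cube n, qd A x ^ 2 = 2 ^ n / 2 * ∑ i, ∑ j, A i j ^ 2 := by
  have h1 : ∑ x : Cube n, qd A x * ∑ i, (qd A x - qd A (flp i x)) = 4 * ∑ x, qd A x ^ 2 := by
    rw [Finset.mul_sum]
    exact Finset.sum_congr rfl fun x _ => by rw [qd_kato A hA]; ring
  have h2 : ∑ x : Cube n, qd A x * ∑ i, (qd A x - qd A (flp i x)) =
      ∑ i, 2 * (2 ^ n * ∑ j, A i j ^ 2) := by
    simp_rw [Finset.mul_sum]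
    rw [Finset.sum_comm]
    apply Finset.sum_congr rfl
    intro i _
    rw [sum_self_diff]
    have h3 : ∀ x : Cube n, (qd A x - qd A (flp i x)) ^ 2 = 4 * lin (A i) x ^ 2 := by
      intro x
      rw [qd_flp A hA.1 hA.2, sub_sub_cancel, mul_pow, mul_pow, sg_sq]
      ring
    simp_rw [h3]
    rw [← Finset.mul_sum, sum_lin_sq]
    rw [Finset.mul_sum, Finset.mul_sum, Finset.mul_sum]
    exact Finset.sum_congr rfl fun j _ => by ring
  rw [h1, ← Finset.mul_sum, ← Finset.mul_sum] at h2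
  linarith

lemma qd_neg {n : ℕ} (A : Fin n → Fin n → ℝ) (x : Cube n) : qd A (-x) = qd A x := by
  unfold qd
  simp_rw [sg_neg]
  congr 1
  exact Finset.sum_congr rfl fun i _ => Finset.sum_congr rfl fun j _ => by ring

theorem main {n : ℕ} (A : Fin n → Fin n → ℝ) (c : ℝ) (hA : SymZ A) :
    4 * (2 ^ n) ^ 2 * c ^ 2 + (2 ^ n) ^ 2 * ∑ i, ∑ j, A i j ^ 2 ≤
      4 * (∑ x, |c + qd A x|) ^ 2 + ∑ i, ∑ j, lev (fun x => |c + qd A x|) i j ^ 2 := by
  have h1 := energy_low (ρ := fun x => |c + qd A x|) (fun x => by simp only [qd_neg])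
  simp only [sq_abs] at h1
  have h2 : ∑ x : Cube n, |c + qd A x| * ∑ i, (|c + qd A x| - |c + qd A (flp i x)|) ≤
      ∑ x : Cube n, (c + qd A x) * (4 * qd A x) := by
    apply Finset.sum_le_sum
    intro x _
    have h3 : (c + qd A x) * (4 * qd A x) =
        ∑ i, ((c + qd A x) * ((c + qd A x) - (c + qd A (flp i x)))) := by
      rw [← Finset.mul_sum, ← qd_kato A hA x]
      congr 1
      exact Finset.sum_congr rfl fun i _ => by ring
    rw [h3, Finset.mul_sum]
    apply Finset.sum_le_sum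
    intro i _
    have h4 := le_abs_self ((c + qd A x) * (c + qd A (flp i x)))
    rw [abs_mul] at h4
    have h5 := abs_mul_abs_self (c + qd A x)
    nlinarith
  have h6 : ∑ x : Cube n, (c + qd A x) * (4 * qd A x) =
      4 * c * ∑ x : Cube n, qd A x + 4 * ∑ x : Cube n, qd A x ^ 2 := by
    rw [Finset.mul_sum, Finset.mul_sum, ← Finset.sum_add_distrib]
    exact Finset.sum_congr rfl fun x _ => by ring
  have h7 : ∑ x : Cube n, (c + qd A x) ^ 2 =
      2 ^ n * c ^ 2 + 2 * c * ∑ x : Cube n, qd A x + ∑ x : Cube n, qd A x ^ 2 := by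
    have h8 : ∑ x : Cube n, (c + qd A x) ^ 2 =
        ∑ x : Cube n, c ^ 2 + 2 * c * ∑ x : Cube n, qd A x + ∑ x : Cube n, qd A x ^ 2 := by
      rw [Finset.mul_sum, ← Finset.sum_add_distrib, ← Finset.sum_add_distrib]
      exact Finset.sum_congr rfl fun x _ => by ring
    rw [h8, Finset.sum_const, card_cube, nsmul_eq_mul]
    push_cast
    ring
  rw [sum_qd A hA, sum_qd_sq A hA] at h6 h7
  rw [h6] at h2
  rw [h7] at h1
  have h9 := mul_le_mul_of_nonneg_left h2 (show (0 : ℝ) ≤ 2 ^ n by positivity)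
  nlinarith

end H651CB.EN

namespace H651CB

theorem t_EN : S_EN := by
  intro n A c hA
  have h := EN.main A c hA
  have hN : (0 : ℝ) < 2 ^ n := by positivity
  have h1 : ∀ i j : Fin n, (if i = j then 0 else ex (fun x => |c + qd A x| * (sg x i * sg x j))) =
      ((2 : ℝ) ^ n)⁻¹ * EN.lev (fun x => |c + qd A x|) i j := by
    intro i j
    by_cases hij : i = j
    · simp [hij, EN.lev]
    · simp [hij, EN.lev, ex]
  simp_rw [h1, mul_pow, ← Finset.mul_sum]
  rw [ex, mul_pow]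
  have h2 := mul_le_mul_of_nonneg_left h (show (0 : ℝ) ≤ (((2 : ℝ) ^ n)⁻¹) ^ 2 by positivity)
  have h3 : (((2 : ℝ) ^ n)⁻¹) ^ 2 * (2 ^ n) ^ 2 = 1 := by
    rw [← mul_pow, inv_mul_cancel₀ hN.ne', one_pow]
  calc 4 * c ^ 2 + ∑ i, ∑ j, A i j ^ 2
      = ((((2 : ℝ) ^ n)⁻¹) ^ 2 * (2 ^ n) ^ 2) * (4 * c ^ 2 + ∑ i, ∑ j, A i j ^ 2) := by
        rw [h3, one_mul]
    _ = (((2 : ℝ) ^ n)⁻¹) ^ 2 * (4 * (2 ^ n) ^ 2 * c ^ 2 +
          (2 ^ n) ^ 2 * ∑ i, ∑ j, A i j ^ 2) := by ring
    _ ≤ _ := h2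
    _ = _ := by ring

end H651CB
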