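import Pool.Agent.H651R2.CB.Defs
import Mathlib
set_option autoImplicit false

/-! Task FI: the final scalar inequality. -/

namespace H651CB

/-- the quartic in the top eigenvalue is positive on `[5/4, 3/2]`-ish range -/
theorem fi_quartic (x : ℝ) (h1 : 5 / 4 ≤ x) (h2 : x ≤ 71 / 50) :
    0 < 4.595 - 7.92 * x + 3.7225 * x ^ 2 - 0.205 * x ^ 4 := by
  have hq : 0 ≤ 3.7225 - 0.205 * (x ^ 2 + 2 * 1.3133 * x + 3 * 1.3133 ^ 2) := by nlinarith
  have h := mul_nonneg (sq_nonneg (x - 1.3133)) hq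
  have e : 4.595 - 7.92 * x + 3.7225 * x ^ 2 - 0.205 * x ^ 4
      = (x - 1.3133) ^ 2 * (3.7225 - 0.205 * (x ^ 2 + 2 * 1.3133 * x + 3 * 1.3133 ^ 2))
        + ((4.595 - 7.92 * 1.3133 + 3.7225 * 1.3133 ^ 2 - 0.205 * 1.3133 ^ 4)
          + (-7.92 + 2 * 3.7225 * 1.3133 - 4 * 0.205 * 1.3133 ^ 3) * (x - 1.3133)) := by ring
  rw [e]
  have h3 : 0 < (4.595 - 7.92 * 1.3133 + 3.7225 * 1.3133 ^ 2 - 0.205 * 1.3133 ^ 4)
          + (-7.92 + 2 * 3.7225 * 1.3133 - 4 * 0.205 * 1.3133 ^ 3) * (x - 1.3133) := by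
    norm_num
    linarith
  linarith

theorem t_FI : S_FI := by
  intro lam c D B S h0 hl2 hD hS hS1 hS2 hB1 hB2 hD2 hc
  by_cases hc2 : c ^ 2 ≤ 3 / 50
  swap
  · push Not at hc2
    linarith
  by_cases hl : lam ^ 2 ≤ 8 / 5
  · have hB : B ≤ 68 / 25 := by
      by_cases h4 : 2 / 5 ≤ lam ^ 2
      · nlinarith [mul_nonneg (sub_nonneg.2 h4) (sub_nonneg.2 hl)]
      · push Not at h4
        linarith
    have := sq_nonneg c
    linarith
  · push Not at hl
    have h1 := hc hl hc2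
    have hlam1 : 5 / 4 ≤ lam := by nlinarith
    have hlam1' : 49 / 40 < lam := by linarith
    have hlam2 : lam ≤ 71 / 50 := by nlinarith
    have hlam3 : 0 ≤ 9 / 10 * lam - 11 / 10 := by nlinarith
    have hcc : (9 / 10 * lam - 11 / 10) ^ 2 ≤ c ^ 2 := by
      rw [← sq_abs c]
      exact pow_le_pow_left₀ hlam3 (by linarith) 2
    have hp := fi_quartic lam hlam1 hlam2
    nlinarith

end H651CB
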