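import Pool.Agent.H651R2.CB.Defs
set_option autoImplicit false

namespace H651CB

theorem gx_small {y : ℝ} (h0 : 0 ≤ y) (h1 : y ≤ 1 / 3) :
    3 / 100 * (1 + y) ^ 3 + 97 / 100 * (1 - 3 * y) ^ 2 ≤
      (1 - 5 / 3 * y) ^ 4 * (1 + y) ^ 3 := by
  have key : (1 - 5 / 3 * y) ^ 4 * (1 + y) ^ 3 -
      (3 / 100 * (1 + y) ^ 3 + 97 / 100 * (1 - 3 * y) ^ 2) =
      y * (619 / 300 * (1 - 3 * y) ^ 6 + 6 * (2099 / 1350) * (3 * y) * (1 - 3 * y) ^ 5 +
        15 * (207497 / 182250) * (3 * y) ^ 2 * (1 - 3 * y) ^ 4 +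
        20 * (440753 / 546750) * (3 * y) ^ 3 * (1 - 3 * y) ^ 3 +
        15 * (1759411 / 3280500) * (3 * y) ^ 4 * (1 - 3 * y) ^ 2 +
        6 * (5866 / 19683) * (3 * y) ^ 5 * (1 - 3 * y) +
        94672 / 1476225 * (3 * y) ^ 6) := by ring
  have h2 : 0 ≤ 1 - 3 * y := by linarith
  have h3 : 0 ≤ y * (619 / 300 * (1 - 3 * y) ^ 6 + 6 * (2099 / 1350) * (3 * y) * (1 - 3 * y) ^ 5 +
        15 * (207497 / 182250) * (3 * y) ^ 2 * (1 - 3 * y) ^ 4 +
        20 * (440753 / 546750) * (3 * y) ^ 3 * (1 - 3 * y) ^ 3 +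
        15 * (1759411 / 3280500) * (3 * y) ^ 4 * (1 - 3 * y) ^ 2 +
        6 * (5866 / 19683) * (3 * y) ^ 5 * (1 - 3 * y) +
        94672 / 1476225 * (3 * y) ^ 6) := by positivity
  linarith

theorem gx_exp : Real.exp (20 / 7) ≤ 1745 / 100 := by
  have h1 : Real.exp (20 / 7) ^ 7 = Real.exp 1 ^ 20 := by
    rw [← Real.exp_nat_mul, ← Real.exp_nat_mul]
    norm_num
  have h2 : Real.exp 1 ^ 20 ≤ (2.7182818286 : ℝ) ^ 20 :=
    pow_le_pow_left₀ (Real.exp_pos 1).le Real.exp_one_lt_d9.le 20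
  by_contra h
  have h3 : (1745 / 100 : ℝ) ^ 7 < Real.exp (20 / 7) ^ 7 :=
    pow_lt_pow_left₀ (not_le.1 h) (by norm_num) (by norm_num)
  rw [h1] at h3
  have h4 : (2.7182818286 : ℝ) ^ 20 < (1745 / 100 : ℝ) ^ 7 := by norm_num
  linarith

theorem t_GX : S_GX := by
  intro y h0 h1
  have hy3 : 0 < (1 + y) ^ 3 := by positivity
  rcases le_total y (1 / 3) with h | h
  · have e1 : (1 - 5 / 3 * y) ^ 4 ≤ Real.exp (-(20 / 3 * y)) := by
      have a1 : 1 - 5 / 3 * y ≤ Real.exp (-(5 / 3 * y)) := by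
        have := Real.add_one_le_exp (-(5 / 3 * y))
        linarith
      have a2 : Real.exp (-(20 / 3 * y)) = Real.exp (-(5 / 3 * y)) ^ 4 := by
        rw [← Real.exp_nat_mul]
        congr 1
        push_cast
        ring
      rw [a2]
      exact pow_le_pow_left₀ (by linarith) a1 4
    refine le_trans ?_ e1
    rw [← mul_le_mul_iff_left₀ hy3]
    have := gx_small h0 h
    calc (3 / 100 + 97 / 100 * ((1 - 3 * y) ^ 2 / (1 + y) ^ 3)) * (1 + y) ^ 3
        = 3 / 100 * (1 + y) ^ 3 + 97 / 100 * (1 - 3 * y) ^ 2 := by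
          field_simp
      _ ≤ _ := this
  · have e1 : (1 - 3 * y) ^ 2 / (1 + y) ^ 3 ≤ 28 / 1000 := by
      rw [div_le_iff₀ hy3]
      have b1 : 28 / 1000 * (1 + y) ^ 3 - (1 - 3 * y) ^ 2 =
          (3 / 7 - y) * (-(28 / 1000) * y ^ 2 + 8904 / 1000 * y - 2268 / 1000) := by ring
      have b2 : 0 ≤ -(28 / 1000) * y ^ 2 + 8904 / 1000 * y - 2268 / 1000 := by nlinarith
      have b3 := mul_nonneg (by linarith : (0 : ℝ) ≤ 3 / 7 - y) b2
      linarith
    have e2 : 100 / 1745 ≤ Real.exp (-(20 / 3 * y)) := by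
      have c1 : Real.exp (-(20 / 7)) ≤ Real.exp (-(20 / 3 * y)) := by
        apply Real.exp_le_exp.2
        linarith
      have c2 : 100 / 1745 ≤ Real.exp (-(20 / 7)) := by
        rw [Real.exp_neg, ← one_div]
        have := one_div_le_one_div_of_le (Real.exp_pos (20 / 7)) gx_exp
        refine le_trans (le_of_eq ?_) this
        norm_num
      linarith
    have e3 : (3 : ℝ) / 100 + 97 / 100 * (28 / 1000) ≤ 100 / 1745 := by norm_num
    linarith

end H651CB
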