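import Pool.Agent.H651R2.CB.Defs
set_option autoImplicit false

namespace H651CB

theorem t_HX : S_HX := by
  intro C hC
  obtain ⟨h1, h2⟩ := abs_le.1 hC
  rw [abs_le]
  constructor
  · nlinarith [mul_nonneg (sq_nonneg (C + 9115 / 10000))
      (by linarith : (0 : ℝ) ≤ 2 * (9115 / 10000) - C)]
  · nlinarith [mul_nonneg (sq_nonneg (C - 9115 / 10000))
      (by linarith : (0 : ℝ) ≤ C + 2 * (9115 / 10000))]

end H651CB
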