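import Pool.Agent.H651R2.CB.Defs
set_option autoImplicit false

/-!
# LB: simple lower bounds for the first moment
-/

namespace H651CB

lemma lb_sg_mul_self {n : ℕ} (x : Cube n) (i : Fin n) : sg x i * sg x i = 1 := by
  rcases Int.units_eq_one_or (x i) with h | h <;> simp [sg, h]

lemma lb_abs_sg {n : ℕ} (x : Cube n) (i : Fin n) : |sg x i| = 1 := by
  rcases Int.units_eq_one_or (x i) with h | h <;> simp [sg, h]

/-- flipping the `i`-th coordinate -/
def lbFlp {n : ℕ} (i : Fin n) (x : Cube n) : Cube n := Function.update x i (-(x i))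

lemma lb_flp_flp {n : ℕ} (i : Fin n) (x : Cube n) : lbFlp i (lbFlp i x) = x := by
  funext j
  by_cases h : j = i
  · subst h; simp [lbFlp]
  · simp [lbFlp, h]

/-- the flip as an equivalence -/
def lbFlpEquiv {n : ℕ} (i : Fin n) : Cube n ≃ Cube n :=
  ⟨lbFlp i, lbFlp i, lb_flp_flp i, lb_flp_flp i⟩

lemma lb_sum_flp {n : ℕ} (i : Fin n) (h : Cube n → ℝ) : ∑ x, h (lbFlp i x) = ∑ x, h x :=
  Equiv.sum_comp (lbFlpEquiv i) h

lemma lb_sg_flp {n : ℕ} (i j : Fin n) (x : Cube n) :
    sg (lbFlp i x) j = (if j = i then -1 else 1) * sg x j := by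
  by_cases h : j = i
  · subst h; simp [lbFlp, sg]
  · simp [lbFlp, sg, h]

lemma lb_qd_flp {n : ℕ} (G : Fin n → Fin n → ℝ) (hs : ∀ i j, G i j = G j i) (hd : ∀ i, G i i = 0)
    (i : Fin n) (x : Cube n) : qd G (lbFlp i x) = qd G x - 2 * (sg x i * lin (G i) x) := by
  have h1 : ∀ a b, G a b * (sg (lbFlp i x) a * sg (lbFlp i x) b) = G a b * (sg x a * sg x b)
      - (if a = i then 2 * (sg x i * (G i b * sg x b)) else 0)
      - (if b = i then 2 * (sg x i * (G i a * sg x a)) else 0) := by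
    intro a b
    rw [lb_sg_flp, lb_sg_flp]
    by_cases ha : a = i
    · subst ha
      by_cases hb : b = a
      · subst hb; simp [hd]
      · simp [hb]; ring
    · by_cases hb : b = i
      · subst hb; simp [ha, hs a b]; ring
      · simp [ha, hb]
  unfold qd
  simp_rw [h1, Finset.sum_sub_distrib]
  have h2 : ∑ a, ∑ b, (if a = i then 2 * (sg x i * (G i b * sg x b)) else 0)
      = 2 * (sg x i * lin (G i) x) := by
    rw [Finset.sum_eq_single i]
    · simp only [if_true, lin]
      rw [Finset.mul_sum, Finset.mul_sum]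
    · intro a _ ha; simp [ha]
    · simp
  have h3 : ∑ a, ∑ b, (if b = i then 2 * (sg x i * (G i a * sg x a)) else 0)
      = 2 * (sg x i * lin (G i) x) := by
    simp only [Finset.sum_ite_eq', Finset.mem_univ, if_true, lin]
    rw [Finset.mul_sum, Finset.mul_sum]
  rw [h2, h3]; ring

lemma lb_ex_const (n : ℕ) (c : ℝ) : ex (fun _ : Cube n => c) = c := by
  unfold ex
  rw [Finset.sum_const, Finset.card_univ]
  have : Fintype.card (Cube n) = 2 ^ n := by simp
  rw [this, nsmul_eq_mul]
  push_cast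
  field_simp

lemma lb_ex_add {n : ℕ} (F G : Cube n → ℝ) : ex (fun x => F x + G x) = ex F + ex G := by
  unfold ex
  rw [Finset.sum_add_distrib, mul_add]

lemma lb_ex_mono {n : ℕ} (F G : Cube n → ℝ) (h : ∀ x, F x ≤ G x) : ex F ≤ ex G := by
  unfold ex
  exact mul_le_mul_of_nonneg_left (Finset.sum_le_sum fun x _ => h x) (by positivity)

lemma lb_ex_flp {n : ℕ} (i : Fin n) (F : Cube n → ℝ) : ex (fun x => F (lbFlp i x)) = ex F := by
  unfold ex
  rw [lb_sum_flp]

lemma lb_ex_mul {n : ℕ} (c : ℝ) (F : Cube n → ℝ) : ex (fun x => c * F x) = c * ex F := by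
  unfold ex
  rw [← Finset.mul_sum]
  ring

lemma lb_ex_nonneg {n : ℕ} (F : Cube n → ℝ) (h : ∀ x, 0 ≤ F x) : 0 ≤ ex F := by
  unfold ex
  exact mul_nonneg (by positivity) (Finset.sum_nonneg fun x _ => h x)

lemma lb_abs_ex_le {n : ℕ} (F : Cube n → ℝ) : |ex F| ≤ ex (fun x => |F x|) := by
  unfold ex
  rw [abs_mul, abs_of_nonneg (by positivity : (0 : ℝ) ≤ ((2 : ℝ) ^ n)⁻¹)]
  exact mul_le_mul_of_nonneg_left (Finset.abs_sum_le_sum_abs _ _) (by positivity)

lemma lb_sum_pair {n : ℕ} (i j : Fin n) (h : i ≠ j) : ∑ x : Cube n, sg x i * sg x j = 0 := by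
  have h1 := lb_sum_flp i (fun x : Cube n => sg x i * sg x j)
  have h2 : ∀ x : Cube n, sg (lbFlp i x) i * sg (lbFlp i x) j = -(sg x i * sg x j) := by
    intro x
    rw [lb_sg_flp, lb_sg_flp, if_pos rfl, if_neg (Ne.symm h)]
    ring
  simp only [h2] at h1
  rw [Finset.sum_neg_distrib] at h1
  linarith

lemma lb_ex_qd {n : ℕ} (A : Fin n → Fin n → ℝ) (hd : ∀ i, A i i = 0) : ex (qd A) = 0 := by
  unfold ex qd
  rw [← Finset.mul_sum, Finset.sum_comm]
  have : ∑ y : Fin n, ∑ x : Cube n, ∑ j, A y j * (sg x y * sg x j) = 0 := by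
    apply Finset.sum_eq_zero
    intro i _
    rw [Finset.sum_comm]
    apply Finset.sum_eq_zero
    intro j _
    rw [← Finset.mul_sum]
    by_cases h : i = j
    · subst h; rw [hd, zero_mul]
    · rw [lb_sum_pair i j h, mul_zero]
  rw [this]
  ring

/-- simple lower bounds for the first moment. -/
theorem t_LB (hKH : S_KH) : S_LB := by
  intro n A c hA
  obtain ⟨hs, hd⟩ := hA
  constructor
  · have h1 : ex (fun x : Cube n => c + qd A x) = c := by
      rw [lb_ex_add (fun _ => c) (qd A), lb_ex_const, lb_ex_qd A hd, add_zero]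
    calc |c| = |ex (fun x : Cube n => c + qd A x)| := by rw [h1]
      _ ≤ _ := lb_abs_ex_le _
  · intro i
    have h1 := hKH n (A i)
    have h2 : ex (fun x : Cube n => |lin (A i) x|) ≤ ex (fun x : Cube n => |c + qd A x|) := by
      have h3 : ∀ x : Cube n, 2 * |lin (A i) x| ≤ |c + qd A x| + |c + qd A (lbFlp i x)| := by
        intro x
        have e1 : c + qd A x - (c + qd A (lbFlp i x)) = 2 * (sg x i * lin (A i) x) := by
          rw [lb_qd_flp A hs hd]; ring
        have e2 : |c + qd A x - (c + qd A (lbFlp i x))| = 2 * |lin (A i) x| := by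
          rw [e1, abs_mul, abs_mul, lb_abs_sg]
          norm_num
        rw [← e2]
        exact abs_sub _ _
      have h4 := lb_ex_mono _ _ h3
      rw [lb_ex_mul 2 (fun x => |lin (A i) x|),
        lb_ex_add (fun x => |c + qd A x|) (fun x => |c + qd A (lbFlp i x)|),
        lb_ex_flp i (fun x => |c + qd A x|)] at h4
      linarith
    have h0 : 0 ≤ ex (fun x : Cube n => |lin (A i) x|) := lb_ex_nonneg _ fun x => abs_nonneg _
    have h5 := pow_le_pow_left₀ h0 h2 2
    unfold infl
    linarith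

end H651CB
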