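import Pool.Agent.H651R2.CB.Defs
set_option autoImplicit false

namespace H651CB

theorem mn_qd_div {n : ℕ} (A : Fin n → Fin n → ℝ) (q : ℝ) (x : Cube n) :
    qd (fun i j => A i j / q) x = qd A x / q := by
  unfold qd
  rw [mul_div_assoc, Finset.sum_div]
  congr 1
  refine Finset.sum_congr rfl fun i _ => ?_
  rw [Finset.sum_div]
  refine Finset.sum_congr rfl fun j _ => ?_
  ring

theorem mn_ex_div {n : ℕ} (A : Fin n → Fin n → ℝ) (c q : ℝ) (hq : 0 < q) :
    ex (fun x => |c / q + qd (fun i j => A i j / q) x|) = ex (fun x => |c + qd A x|) / q := by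
  unfold ex
  rw [mul_div_assoc, Finset.sum_div]
  congr 1
  refine Finset.sum_congr rfl fun x _ => ?_
  show |c / q + qd (fun i j => A i j / q) x| = |c + qd A x| / q
  rw [mn_qd_div, ← add_div, abs_div, abs_of_pos hq]

theorem t_MN (hST : S_ST) : S_MN := by
  intro n
  have key : ∀ (m : ℕ) (A : Fin n → Fin n → ℝ) (c : ℝ), SymZ A →
      {k | ∃ l, A k l ≠ 0}.ncard = m →
      ∑ i, ∑ j, A i j ^ 2 ≤ 8 * (ex (fun x => |c + qd A x|)) ^ 2 := by
    intro m
    induction m using Nat.strong_induction_on with
    | _ m ih =>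
      intro A c hA hm
      set S : ℝ := ∑ i, ∑ j, A i j ^ 2 with hS
      have hS0 : 0 ≤ S := Finset.sum_nonneg fun i _ => Finset.sum_nonneg fun j _ => sq_nonneg _
      rcases hS0.lt_or_eq with hpos | hzero
      · set q : ℝ := Real.sqrt (S / 2) with hq
        have hq0 : 0 < q := Real.sqrt_pos.2 (by positivity)
        have hq2 : q ^ 2 = S / 2 := Real.sq_sqrt (by positivity)
        have hrows : {k | ∃ l, A k l / q ≠ 0} = {k | ∃ l, A k l ≠ 0} := by
          ext k
          simp only [Set.mem_ofPred_eq, ne_eq, div_eq_zero_iff, hq0.ne', or_false]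
        have h1 := hST n (fun i j => A i j / q) (c / q)
          ⟨fun i j => by show A i j / q = A j i / q; rw [hA.1 i j],
            fun i => by show A i i / q = 0; rw [hA.2 i, zero_div]⟩ (by
            have e1 : ∀ i j, (A i j / q) ^ 2 = A i j ^ 2 / q ^ 2 := fun i j => div_pow _ _ _
            simp only [e1, ← Finset.sum_div]
            rw [← hS, hq2]
            field_simp) (by
            intro A' c' hA' hsub
            rw [hrows] at hsub
            exact ih _ (by rw [← hm]; exact Set.ncard_lt_ncard hsub (Set.toFinite _)) A' c' hA' rfl)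
        rw [mn_ex_div A c q hq0, le_div_iff₀ hq0] at h1
        have h2 : S = 2 * q ^ 2 := by rw [hq2]; ring
        rw [h2]
        nlinarith
      · rw [← hzero]
        positivity
  intro A c hA
  exact key _ A c hA rfl

end H651CB
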