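import Pool.Agent.H651R2.CB.Defs
set_option autoImplicit false

namespace H651CB

theorem nx_exp9 : Real.exp (9 / 10) ≤ 24605 / 10000 := by
  have h1 : Real.exp (9 / 10) ^ 10 = Real.exp 1 ^ 9 := by
    rw [← Real.exp_nat_mul, ← Real.exp_nat_mul]
    norm_num
  have h2 : Real.exp 1 ^ 9 ≤ (2.7182818286 : ℝ) ^ 9 :=
    pow_le_pow_left₀ (Real.exp_pos 1).le Real.exp_one_lt_d9.le 9
  by_contra h
  have h3 : (24605 / 10000 : ℝ) ^ 10 < Real.exp (9 / 10) ^ 10 :=
    pow_lt_pow_left₀ (not_le.1 h) (by norm_num) (by norm_num)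
  rw [h1] at h3
  have h4 : (2.7182818286 : ℝ) ^ 9 < (24605 / 10000 : ℝ) ^ 10 := by norm_num
  linarith

theorem nx_exp6 : Real.exp (-6) ≤ 1 / 403 := by
  have h1 : Real.exp 6 = Real.exp 1 ^ 6 := by
    rw [← Real.exp_nat_mul]; norm_num
  have h2 : (2.7182818283 : ℝ) ^ 6 ≤ Real.exp 1 ^ 6 :=
    pow_le_pow_left₀ (by norm_num) Real.exp_one_gt_d9.le 6
  have h3 : (403 : ℝ) ≤ Real.exp 6 := by
    rw [h1]
    refine le_trans ?_ h2
    norm_num
  rw [Real.exp_neg, ← one_div]
  exact one_div_le_one_div_of_le (by norm_num) h3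

theorem t_NX : S_NX := by
  intro z hz
  by_contra hcon
  push Not at hcon
  have hE : 10000 / 24605 ≤ Real.exp (-(9 / 10)) := by
    rw [Real.exp_neg, ← one_div]
    have := one_div_le_one_div_of_le (Real.exp_pos (9 / 10)) nx_exp9
    refine le_trans (le_of_eq ?_) this
    norm_num
  have hs : Real.sqrt (53 / 50) ≤ 10297 / 10000 := by
    rw [Real.sqrt_le_left (by norm_num)]
    norm_num
  have hs0 : 0 ≤ Real.sqrt (53 / 50) := Real.sqrt_nonneg _
  have h6 := nx_exp6
  have h60 := (Real.exp_pos (-6)).le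
  have hprod : Real.sqrt (53 / 50) * (Real.exp (-6) / (3 / 100)) ≤
      10297 / 10000 * (1 / 403 / (3 / 100)) := by
    apply mul_le_mul hs _ (by positivity) (by norm_num)
    exact div_le_div_of_nonneg_right h6 (by norm_num)
  have hz1 : 23 / 20 * (10000 / 24605) * (11 / 10) <
      23 / 20 * Real.exp (-(9 / 10)) * z := by
    have hE0 := Real.exp_pos (-(9 / 10))
    have a1 : (23 : ℝ) / 20 * (10000 / 24605) * (11 / 10) ≤
        23 / 20 * Real.exp (-(9 / 10)) * (11 / 10) := by nlinarith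
    have a2 : 23 / 20 * Real.exp (-(9 / 10)) * (11 / 10) <
        23 / 20 * Real.exp (-(9 / 10)) * z := by
      apply mul_lt_mul_of_pos_left hcon (by positivity)
    linarith
  nlinarith

end H651CB
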