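import Pool.Agent.H651R2.CB.Defs

set_option autoImplicit false

/-! Task PP (helper97): a product against its terms of degree 0 and 2. -/

namespace H651CB

section
variable {ι : Type} [DecidableEq ι]

/-- degree 1 part -/
private def pp_D1 (p q : ι → ℝ) (s : Finset ι) : ℝ := ∑ i ∈ s, q i * ∏ k ∈ s.erase i, p k

/-- twice the degree 2 part -/
private def pp_D2 (p q : ι → ℝ) (s : Finset ι) : ℝ :=
  ∑ i ∈ s, ∑ j ∈ s, (if i = j then 0 else q i * q j * ∏ k ∈ (s.erase i).erase j, p k)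

private theorem pp_D1_nonneg (p q : ι → ℝ) (hp : ∀ k, 0 ≤ p k) (hq : ∀ k, 0 ≤ q k)
    (s : Finset ι) : 0 ≤ pp_D1 p q s :=
  Finset.sum_nonneg fun i _ => mul_nonneg (hq i) (Finset.prod_nonneg fun k _ => hp k)

private theorem pp_D2_nonneg (p q : ι → ℝ) (hp : ∀ k, 0 ≤ p k) (hq : ∀ k, 0 ≤ q k)
    (s : Finset ι) : 0 ≤ pp_D2 p q s := by
  refine Finset.sum_nonneg fun i _ => Finset.sum_nonneg fun j _ => ?_
  split_ifs
  · exact le_rfl
  · exact mul_nonneg (mul_nonneg (hq i) (hq j)) (Finset.prod_nonneg fun k _ => hp k)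

private theorem pp_D1_insert (p q : ι → ℝ) {a : ι} {s : Finset ι} (ha : a ∉ s) :
    pp_D1 p q (insert a s) = q a * ∏ k ∈ s, p k + p a * pp_D1 p q s := by
  unfold pp_D1
  rw [Finset.sum_insert ha, Finset.erase_insert ha, Finset.mul_sum]
  congr 1
  refine Finset.sum_congr rfl fun i hi => ?_
  have hia : i ≠ a := fun h => ha (h ▸ hi)
  rw [Finset.erase_insert_of_ne (Ne.symm hia), Finset.prod_insert (fun h => ha (Finset.mem_of_mem_erase h))]
  ring

private theorem pp_D2_insert (p q : ι → ℝ) {a : ι} {s : Finset ι} (ha : a ∉ s) :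
    pp_D2 p q (insert a s) = 2 * (q a * pp_D1 p q s) + p a * pp_D2 p q s := by
  unfold pp_D2
  rw [Finset.sum_insert ha, Finset.sum_insert ha]
  have h1 : ∑ j ∈ s, (if a = j then 0 else
      q a * q j * ∏ k ∈ ((insert a s).erase a).erase j, p k) = q a * pp_D1 p q s := by
    unfold pp_D1
    rw [Finset.mul_sum]
    refine Finset.sum_congr rfl fun j hj => ?_
    have hja : a ≠ j := fun h => ha (h ▸ hj)
    rw [if_neg hja, Finset.erase_insert ha]
    ring
  have h2 : ∑ i ∈ s, ∑ j ∈ insert a s, (if i = j then 0 else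
      q i * q j * ∏ k ∈ ((insert a s).erase i).erase j, p k) =
      q a * pp_D1 p q s + p a * ∑ i ∈ s, ∑ j ∈ s, (if i = j then 0 else
        q i * q j * ∏ k ∈ (s.erase i).erase j, p k) := by
    unfold pp_D1
    rw [Finset.mul_sum, Finset.mul_sum, ← Finset.sum_add_distrib]
    refine Finset.sum_congr rfl fun i hi => ?_
    have hia : i ≠ a := fun h => ha (h ▸ hi)
    rw [Finset.sum_insert ha, if_neg hia, Finset.mul_sum]
    congr 1
    · rw [Finset.erase_insert_of_ne (Ne.symm hia),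
        Finset.erase_insert (fun h => ha (Finset.mem_of_mem_erase h))]
      ring
    · refine Finset.sum_congr rfl fun j hj => ?_
      by_cases hij : i = j
      · simp [hij]
      · have hja : j ≠ a := fun h => ha (h ▸ hj)
        rw [if_neg hij, if_neg hij, Finset.erase_insert_of_ne (Ne.symm hia),
          Finset.erase_insert_of_ne (Ne.symm hja),
          Finset.prod_insert (fun h => ha (Finset.mem_of_mem_erase (Finset.mem_of_mem_erase h)))]
        ring
  rw [if_pos rfl, zero_add, h1, h2]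
  ring

private theorem pp_main (p q : ι → ℝ) (ρ : ℝ) (hp : ∀ k, 0 ≤ p k) (hq : ∀ k, 0 ≤ q k)
    (hρ : 0 ≤ ρ) (s : Finset ι) :
    ∏ k ∈ s, p k + ρ * pp_D1 p q s + ρ ^ 2 * (1 / 2 * pp_D2 p q s) ≤
      ∏ k ∈ s, (p k + ρ * q k) := by
  induction s using Finset.induction_on with
  | empty => simp [pp_D1, pp_D2]
  | insert a s ha ih =>
    rw [Finset.prod_insert ha, Finset.prod_insert ha, pp_D1_insert p q ha, pp_D2_insert p q ha]
    have h1 : 0 ≤ p a + ρ * q a := add_nonneg (hp a) (mul_nonneg hρ (hq a))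
    have h2 := mul_le_mul_of_nonneg_left ih h1
    have h3 : 0 ≤ ρ ^ 3 * (q a * (1 / 2 * pp_D2 p q s)) := by
      have := pp_D2_nonneg p q hp hq s
      have := hq a
      positivity
    nlinarith

end

theorem t_PP : S_PP := by
  intro n p q ρ hp hq h0 h1
  have h := pp_main p q ρ hp hq h0 Finset.univ
  have e1 := pp_D1_nonneg p q hp hq (Finset.univ : Finset (Fin n))
  have e2 := pp_D2_nonneg p q hp hq (Finset.univ : Finset (Fin n))
  have e0 : 0 ≤ ∏ k, p k := Finset.prod_nonneg fun k _ => hp k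
  have e3 : 0 ≤ ρ * pp_D1 p q (Finset.univ : Finset (Fin n)) := mul_nonneg h0 e1
  have e4 : ρ ^ 2 ≤ 1 := pow_le_one₀ h0 h1
  have e5 : ρ ^ 2 * ∏ k, p k ≤ 1 * ∏ k, p k := mul_le_mul_of_nonneg_right e4 e0
  unfold pp_D2 at h
  rw [mul_add]
  linarith

end H651CB
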