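import Pool.Agent.H651R2.CB.Defs
set_option autoImplicit false

namespace H651CB

lemma pr_D (p : ℝ) (h0 : 0 ≤ p) (h1 : p ≤ 1 / 10) :
    0 ≤ 220 * (220 * (1 - p) ^ 2 + 336 * p * (1 - p) ^ 3 - 200) -
      (60 * (1 - p) - 840 * p * (1 - p) ^ 2) ^ 2 := by
  have h2 : 0 ≤ 1 / 10 - p := by linarith
  have e : 220 * (220 * (1 - p) ^ 2 + 336 * p * (1 - p) ^ 3 - 200) -
      (60 * (1 - p) - 840 * p * (1 - p) ^ 2) ^ 2 =
      (800000000 / 1 : ℝ) * (p ^ 0 * (1 / 10 - p) ^ 6) + (13312000000 / 1 : ℝ) * (p ^ 1 * (1 / 10 - p) ^ 5) + (42710400000 / 1 : ℝ) * (p ^ 2 * (1 / 10 - p) ^ 4) + (57068160000 / 1 : ℝ) * (p ^ 3 * (1 / 10 - p) ^ 3) + (35621248000 / 1 : ℝ) * (p ^ 4 * (1 / 10 - p) ^ 2) + (9147840000 / 1 : ℝ) * (p ^ 5 * (1 / 10 - p) ^ 1) + (395646400 / 1 : ℝ) * (p ^ 6 * (1 / 10 - p) ^ 0) := by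
    ring
  rw [e]
  positivity

lemma pr_R (p : ℝ) (h0 : 1 / 10 ≤ p) (h1 : p ≤ 5 / 18) :
    0 ≤ 20 * (2 * p * (1 - p) + (-1 / 8 + 3 / 2 * p - 5 / 2 * p ^ 2)) ^ 2 +
      35 * (2 * p * (1 - p) - (-1 / 8 + 3 / 2 * p - 5 / 2 * p ^ 2)) ^ 2 +
      42 * (2 * p * (1 - p) + (-1 / 8 + 3 / 2 * p - 5 / 2 * p ^ 2)) ^ 2 *
        (2 * p * (1 - p) + 3 * (-1 / 8 + 3 / 2 * p - 5 / 2 * p ^ 2)) - 200 * p ^ 2 := by
  have h2 : 0 ≤ p - 1 / 10 := by linarith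
  have h3 : 0 ≤ 5 / 18 - p := by linarith
  have e : 20 * (2 * p * (1 - p) + (-1 / 8 + 3 / 2 * p - 5 / 2 * p ^ 2)) ^ 2 +
      35 * (2 * p * (1 - p) - (-1 / 8 + 3 / 2 * p - 5 / 2 * p ^ 2)) ^ 2 +
      42 * (2 * p * (1 - p) + (-1 / 8 + 3 / 2 * p - 5 / 2 * p ^ 2)) ^ 2 *
        (2 * p * (1 - p) + 3 * (-1 / 8 + 3 / 2 * p - 5 / 2 * p ^ 2)) - 200 * p ^ 2 =
      (223736661 / 262144 : ℝ) * ((p - 1 / 10) ^ 0 * (5 / 18 - p) ^ 6) + (387656685 / 131072 : ℝ) * ((p - 1 / 10) ^ 1 * (5 / 18 - p) ^ 5) + (34235133975 / 262144 : ℝ) * ((p - 1 / 10) ^ 2 * (5 / 18 - p) ^ 4) + (33365145375 / 65536 : ℝ) * ((p - 1 / 10) ^ 3 * (5 / 18 - p) ^ 3) + (149560981875 / 262144 : ℝ) * ((p - 1 / 10) ^ 4 * (5 / 18 - p) ^ 2) + (26341453125 / 131072 : ℝ) * ((p - 1 / 10) ^ 5 * (5 / 18 - p) ^ 1) + (780890625 / 262144 : ℝ) * ((p - 1 / 10) ^ 6 * (5 / 18 - p) ^ 0) := by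
    ring
  rw [e]
  positivity

/-- the scalar inequality -/
lemma pr_main (p u : ℝ) (hp : 0 ≤ p) (hu : 0 ≤ u)
    (h1 : u ≤ (1 - 2 * p) ^ 2 / 2) (h2 : -1 / 8 + 3 / 2 * p - 5 / 2 * p ^ 2 < u) (hp2 : p ≤ 1 / 2) :
    9 * p ≤ 5 * (2 * p * (1 - p) + u) ∧
    200 * p ^ 2 ≤ 20 * (2 * p * (1 - p) + u) ^ 2 + 35 * (2 * p * (1 - p) - u) ^ 2 +
      42 * (2 * p * (1 - p) + u) ^ 2 * (2 * p * (1 - p) + 3 * u) := by
  have hp3 : p < 5 / 18 := by
    by_contra h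
    have h' : 5 / 18 ≤ p := not_lt.mp h
    nlinarith [mul_nonneg (sub_nonneg.mpr h') (sub_nonneg.mpr hp2)]
  constructor
  · rcases le_total p (1 / 10) with h | h
    · nlinarith [mul_nonneg hp (sub_nonneg.mpr h)]
    · nlinarith [mul_nonneg (sub_nonneg.mpr h) (sub_nonneg.mpr hp3.le)]
  · rcases le_total p (1 / 10) with h | h
    · have hD := pr_D p hp h
      have hm : 0 ≤ 2 * p * (1 - p) := by
        apply mul_nonneg (by linarith); linarith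
      have e1 : 0 ≤ (110 * u - p * (60 * (1 - p) - 840 * p * (1 - p) ^ 2)) ^ 2 +
          p ^ 2 * (220 * (220 * (1 - p) ^ 2 + 336 * p * (1 - p) ^ 3 - 200) -
            (60 * (1 - p) - 840 * p * (1 - p) ^ 2) ^ 2) := by
        have := mul_nonneg (sq_nonneg p) hD
        have := sq_nonneg (110 * u - p * (60 * (1 - p) - 840 * p * (1 - p) ^ 2))
        linarith
      have e2 : 0 ≤ 7 * (2 * p * (1 - p)) * u ^ 2 + 3 * u ^ 3 := by positivity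
      have e3 : 220 * (20 * (2 * p * (1 - p) + u) ^ 2 + 35 * (2 * p * (1 - p) - u) ^ 2 +
          42 * (2 * p * (1 - p) + u) ^ 2 * (2 * p * (1 - p) + 3 * u) - 200 * p ^ 2) =
          ((110 * u - p * (60 * (1 - p) - 840 * p * (1 - p) ^ 2)) ^ 2 +
          p ^ 2 * (220 * (220 * (1 - p) ^ 2 + 336 * p * (1 - p) ^ 3 - 200) -
            (60 * (1 - p) - 840 * p * (1 - p) ^ 2) ^ 2)) +
          220 * 42 * (7 * (2 * p * (1 - p)) * u ^ 2 + 3 * u ^ 3) := by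
        ring
      linarith
    · have hR := pr_R p h hp3.le
      set v := -1 / 8 + 3 / 2 * p - 5 / 2 * p ^ 2 with hv
      set m := 2 * p * (1 - p) with hm
      have hm1 : 1 / 7 ≤ m := by
        rw [hm]; nlinarith [mul_nonneg (sub_nonneg.mpr h) (sub_nonneg.mpr hp3.le)]
      have hv0 : 0 ≤ v := by
        rw [hv]; nlinarith [mul_nonneg (sub_nonneg.mpr h) (sub_nonneg.mpr hp3.le)]
      have e1 : (20 * (m + u) ^ 2 + 35 * (m - u) ^ 2 + 42 * (m + u) ^ 2 * (m + 3 * u)) -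
          (20 * (m + v) ^ 2 + 35 * (m - v) ^ 2 + 42 * (m + v) ^ 2 * (m + 3 * v)) =
          (u - v) * (30 * m * (7 * m - 1) + 55 * (u + v) + 294 * m * (u + v) +
            126 * (u ^ 2 + u * v + v ^ 2)) := by ring
      have e2 : 0 ≤ (u - v) * (30 * m * (7 * m - 1) + 55 * (u + v) + 294 * m * (u + v) +
            126 * (u ^ 2 + u * v + v ^ 2)) := by
        apply mul_nonneg (by linarith)
        have hm0 : 0 ≤ m := by linarith
        have h7 : 0 ≤ 7 * m - 1 := by linarith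
        positivity
      linarith

theorem t_PR : S_PR := by
  intro x w a b p ha hax haw hx hw hb hbb hp hp2 hpe hxw
  have hX : 0 ≤ x - a := by linarith
  have hW : 0 ≤ w - a := by linarith
  -- `s = b + a`
  have h1 : 2 * b ≤ (x - a) + (w - a) := by
    by_contra h
    have h' := not_le.mp h
    nlinarith [sq_nonneg ((x - a) - (w - a))]
  have hs : 2 * (b + a) ≤ x + w := by linarith
  have h2 : (b + a) ^ 2 ≤ x * w := by nlinarith
  have h3 : 2 * (b + a) ^ 2 ≤ x ^ 2 + w ^ 2 := by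
    nlinarith [sq_nonneg (x - w), mul_nonneg (by linarith : 0 ≤ (x + w) - 2 * (b + a))
      (by linarith : 0 ≤ (x + w) + 2 * (b + a))]
  have h4 : 2 * (b + a) ^ 3 ≤ x * w * (x + w) := by
    have hs0 : 0 ≤ b + a := by linarith
    have hxw0 : 0 ≤ x * w := by nlinarith [sq_nonneg (b + a)]
    calc 2 * (b + a) ^ 3 = (b + a) ^ 2 * (2 * (b + a)) := by ring
      _ ≤ (x * w) * (x + w) := by
        apply mul_le_mul h2 hs (by linarith) hxw0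
  have hbe : b = 2 * p * (1 - p) - a / 2 := by linarith
  have hse : b + a = 2 * p * (1 - p) + a / 2 := by linarith
  have k1 : a / 2 ≤ (1 - 2 * p) ^ 2 / 2 := by nlinarith
  have k2 : -1 / 8 + 3 / 2 * p - 5 / 2 * p ^ 2 < a / 2 := by nlinarith
  obtain ⟨m1, m2⟩ := pr_main p (a / 2) hp (by linarith) k1 k2 hp2
  constructor
  · have : (9 * p) ^ 2 ≤ (5 * (2 * p * (1 - p) + a / 2)) ^ 2 :=
      pow_le_pow_left₀ (by linarith) m1 2
    rw [← hse] at this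
    nlinarith
  · rw [← hse, ← hbe] at m2
    have e1 : 2 * p * (1 - p) + 3 * (a / 2) = b + a + a := by linarith
    rw [e1] at m2
    have e2 : a * (2 * (b + a) ^ 2) ≤ a * (x ^ 2 + w ^ 2) := mul_le_mul_of_nonneg_left h3 ha
    nlinarith

end H651CB
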