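import Pool.Agent.H651R2.CB.Defs
set_option autoImplicit false

/-!
# RS: the substitution `x_j := ε x_i`
-/

namespace H651CB

/-- indicator of the coordinates different from `i` and `j` -/
def rs_m {n : ℕ} (i j k : Fin n) : ℝ := if k = i ∨ k = j then 0 else 1

lemma rs_m_i {n : ℕ} (i j : Fin n) : rs_m i j i = 0 := by simp [rs_m]

lemma rs_m_j {n : ℕ} (i j : Fin n) : rs_m i j j = 0 := by simp [rs_m]

lemma rs_m_ne {n : ℕ} {i j k : Fin n} (h1 : k ≠ i) (h2 : k ≠ j) : rs_m i j k = 1 := by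
  simp [rs_m, h1, h2]

lemma rs_m_sq {n : ℕ} (i j k : Fin n) : rs_m i j k * rs_m i j k = rs_m i j k := by
  unfold rs_m; split_ifs <;> simp

lemma rs_dec1 {n : ℕ} {i j : Fin n} (hij : i ≠ j) (φ : Fin n → ℝ) :
    ∑ k, φ k = ∑ k, rs_m i j k * φ k + φ i + φ j := by
  have h : ∀ k, φ k = rs_m i j k * φ k + (if k = i then φ i else 0) + (if k = j then φ j else 0) := by
    intro k
    by_cases h1 : k = i
    · subst h1
      simp [rs_m_i, hij]
    · by_cases h2 : k = j
      · subst h2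
        simp [rs_m_j, h1]
      · simp [rs_m_ne h1 h2, h1, h2]
  conv_lhs => rw [Finset.sum_congr rfl (fun k _ => h k)]
  rw [Finset.sum_add_distrib, Finset.sum_add_distrib]
  simp

lemma rs_dec {n : ℕ} {i j : Fin n} (hij : i ≠ j) (φ : Fin n → Fin n → ℝ) (hφ : ∀ k, φ k k = 0) :
    ∑ k, ∑ l, φ k l = ∑ k, ∑ l, rs_m i j k * rs_m i j l * φ k l
      + ∑ l, rs_m i j l * φ i l + ∑ l, rs_m i j l * φ j l
      + ∑ k, rs_m i j k * φ k i + ∑ k, rs_m i j k * φ k j + φ i j + φ j i := by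
  have h1 : ∀ k, ∑ l, φ k l = ∑ l, rs_m i j l * φ k l + φ k i + φ k j :=
    fun k => rs_dec1 hij (φ k)
  rw [Finset.sum_congr rfl (fun k _ => h1 k)]
  rw [rs_dec1 hij (fun k => ∑ l, rs_m i j l * φ k l + φ k i + φ k j)]
  have h2 : ∑ k, rs_m i j k * (∑ l, rs_m i j l * φ k l + φ k i + φ k j) =
      ∑ k, ∑ l, rs_m i j k * rs_m i j l * φ k l + ∑ k, rs_m i j k * φ k i +
        ∑ k, rs_m i j k * φ k j := by
    rw [← Finset.sum_add_distrib, ← Finset.sum_add_distrib]
    apply Finset.sum_congr rfl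
    intro k _
    rw [mul_add, mul_add, Finset.mul_sum]
    congr 2
    apply Finset.sum_congr rfl
    intro l _
    ring
  rw [h2, hφ i, hφ j]
  ring

/-- the new coefficients of the row `i` -/
def rs_v {n : ℕ} (A : Fin n → Fin n → ℝ) (i j : Fin n) (ε : ℝ) (k : Fin n) : ℝ :=
  rs_m i j k * (A i k + ε * A j k)

/-- the new matrix -/
def rs_A {n : ℕ} (A : Fin n → Fin n → ℝ) (i j : Fin n) (ε : ℝ) (k l : Fin n) : ℝ :=
  rs_m i j k * rs_m i j l * A k l + (if k = i then rs_v A i j ε l else 0)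
    + (if l = i then rs_v A i j ε k else 0)

lemma rs_v_i {n : ℕ} (A : Fin n → Fin n → ℝ) (i j : Fin n) (ε : ℝ) : rs_v A i j ε i = 0 := by
  simp [rs_v, rs_m_i]

lemma rs_v_j {n : ℕ} (A : Fin n → Fin n → ℝ) (i j : Fin n) (ε : ℝ) : rs_v A i j ε j = 0 := by
  simp [rs_v, rs_m_j]

lemma rs_m_v {n : ℕ} (A : Fin n → Fin n → ℝ) (i j : Fin n) (ε : ℝ) (k : Fin n) :
    rs_m i j k * rs_v A i j ε k = rs_v A i j ε k := by
  unfold rs_v
  rw [← mul_assoc, rs_m_sq]

lemma rs_A_i {n : ℕ} (A : Fin n → Fin n → ℝ) (i j : Fin n) (ε : ℝ) (k : Fin n) :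
    rs_A A i j ε i k = rs_v A i j ε k := by
  unfold rs_A
  rw [rs_m_i, rs_v_i]
  simp

lemma rs_A_i' {n : ℕ} (A : Fin n → Fin n → ℝ) (i j : Fin n) (ε : ℝ) (k : Fin n) :
    rs_A A i j ε k i = rs_v A i j ε k := by
  unfold rs_A
  rw [rs_m_i, rs_v_i]
  simp

lemma rs_A_j {n : ℕ} (A : Fin n → Fin n → ℝ) {i j : Fin n} (hij : i ≠ j) (ε : ℝ) (k : Fin n) :
    rs_A A i j ε j k = 0 := by
  unfold rs_A
  rw [rs_m_j, rs_v_j]
  simp [hij.symm]

lemma rs_A_j' {n : ℕ} (A : Fin n → Fin n → ℝ) {i j : Fin n} (hij : i ≠ j) (ε : ℝ) (k : Fin n) :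
    rs_A A i j ε k j = 0 := by
  unfold rs_A
  rw [rs_m_j, rs_v_j]
  simp [hij.symm]

lemma rs_A_diag {n : ℕ} (A : Fin n → Fin n → ℝ) (hA : SymZ A) (i j : Fin n) (ε : ℝ)
    (k : Fin n) : rs_A A i j ε k k = 0 := by
  unfold rs_A
  rw [hA.2 k]
  by_cases h : k = i
  · subst h
    simp [rs_v_i]
  · simp [h]

lemma rs_mm_A {n : ℕ} (A : Fin n → Fin n → ℝ) (i j : Fin n) (ε : ℝ) (k l : Fin n) :
    rs_m i j k * rs_m i j l * rs_A A i j ε k l = rs_m i j k * rs_m i j l * A k l := by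
  by_cases h1 : k = i
  · subst h1
    simp [rs_m_i]
  · by_cases h2 : k = j
    · subst h2
      simp [rs_m_j]
    · by_cases h3 : l = i
      · subst h3
        simp [rs_m_i]
      · by_cases h4 : l = j
        · subst h4
          simp [rs_m_j]
        · simp [rs_A, rs_m_ne h1 h2, rs_m_ne h3 h4, h1, h3]

lemma rs_mm_A2 {n : ℕ} (A : Fin n → Fin n → ℝ) (i j : Fin n) (ε : ℝ) (k l : Fin n) :
    rs_m i j k * rs_m i j l * rs_A A i j ε k l ^ 2 = rs_m i j k * rs_m i j l * A k l ^ 2 := by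
  have h := rs_mm_A A i j ε k l
  have e1 : rs_m i j k * rs_m i j l * rs_A A i j ε k l ^ 2 =
      (rs_m i j k * rs_m i j l * rs_A A i j ε k l) * (rs_m i j k * rs_m i j l *
        rs_A A i j ε k l) := by
    calc rs_m i j k * rs_m i j l * rs_A A i j ε k l ^ 2
        = (rs_m i j k * rs_m i j k) * (rs_m i j l * rs_m i j l) * rs_A A i j ε k l ^ 2 := by
          rw [rs_m_sq, rs_m_sq]
      _ = _ := by ring
  have e2 : rs_m i j k * rs_m i j l * A k l ^ 2 =
      (rs_m i j k * rs_m i j l * A k l) * (rs_m i j k * rs_m i j l * A k l) := by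
    calc rs_m i j k * rs_m i j l * A k l ^ 2
        = (rs_m i j k * rs_m i j k) * (rs_m i j l * rs_m i j l) * A k l ^ 2 := by
          rw [rs_m_sq, rs_m_sq]
      _ = _ := by ring
  rw [e1, e2, h]

/-! ### the cube -/

lemma rs_sg_sq {n : ℕ} (x : Cube n) (i : Fin n) : sg x i * sg x i = 1 := by
  rcases Int.units_eq_one_or (x i) with h | h <;> simp [sg, h]

/-- flipping the `i`-th coordinate -/
def rs_flp {n : ℕ} (i : Fin n) (x : Cube n) : Cube n := Function.update x i (-(x i))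

lemma rs_flp_flp {n : ℕ} (i : Fin n) (x : Cube n) : rs_flp i (rs_flp i x) = x := by
  funext j
  by_cases h : j = i
  · subst h; simp [rs_flp]
  · simp [rs_flp, h]

lemma rs_sum_flp {n : ℕ} (i : Fin n) (h : Cube n → ℝ) : ∑ x, h (rs_flp i x) = ∑ x, h x :=
  Equiv.sum_comp (⟨rs_flp i, rs_flp i, rs_flp_flp i, rs_flp_flp i⟩ : Cube n ≃ Cube n) h

lemma rs_sg_flp {n : ℕ} (j : Fin n) (x : Cube n) : sg (rs_flp j x) j = -sg x j := by
  simp [rs_flp, sg]

lemma rs_sg_flp_ne {n : ℕ} {i j : Fin n} (h : i ≠ j) (x : Cube n) :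
    sg (rs_flp j x) i = sg x i := by
  simp [rs_flp, sg, h]

/-- the substitution -/
def rs_sub {n : ℕ} (i j : Fin n) (e : ℤˣ) (x : Cube n) : Cube n :=
  Function.update x j (e * x i)

lemma rs_sub_j {n : ℕ} (i j : Fin n) (e : ℤˣ) (x : Cube n) :
    sg (rs_sub i j e x) j = ((e : ℤ) : ℝ) * sg x i := by
  simp [rs_sub, sg]

lemma rs_sub_ne {n : ℕ} {i j k : Fin n} (h : k ≠ j) (e : ℤˣ) (x : Cube n) :
    sg (rs_sub i j e x) k = sg x k := by
  simp [rs_sub, sg, h]

lemma rs_point {n : ℕ} {i j : Fin n} (e : ℤˣ) (F : Cube n → ℝ) (x : Cube n) :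
    F x * (1 + ((e : ℤ) : ℝ) * (sg x i * sg x j)) +
      F (rs_flp j x) * (1 - ((e : ℤ) : ℝ) * (sg x i * sg x j)) = 2 * F (rs_sub i j e x) := by
  by_cases h : x j = e * x i
  · have h1 : rs_sub i j e x = x := by
      unfold rs_sub
      rw [← h, Function.update_eq_self]
    have h2 : ((e : ℤ) : ℝ) * (sg x i * sg x j) = 1 := by
      unfold sg
      rw [h]
      rcases Int.units_eq_one_or (x i) with h3 | h3 <;> rcases Int.units_eq_one_or e with h4 | h4 <;>
        simp [h3, h4]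
    rw [h1, h2]
    ring
  · have h0 : x j = -(e * x i) := by
      rcases Int.units_eq_one_or (x i) with h3 | h3 <;> rcases Int.units_eq_one_or e with h4 | h4 <;>
        rcases Int.units_eq_one_or (x j) with h5 | h5 <;> simp_all
    have h1 : rs_sub i j e x = rs_flp j x := by
      unfold rs_sub rs_flp
      rw [h0, neg_neg]
    have h2 : ((e : ℤ) : ℝ) * (sg x i * sg x j) = -1 := by
      unfold sg
      rw [h0]
      rcases Int.units_eq_one_or (x i) with h3 | h3 <;> rcases Int.units_eq_one_or e with h4 | h4 <;>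
        simp [h3, h4]
    rw [h1, h2]
    ring

lemma rs_sum {n : ℕ} {i j : Fin n} (hij : i ≠ j) (e : ℤˣ) (F : Cube n → ℝ) :
    ∑ x, F (rs_sub i j e x) = ∑ x, F x + ((e : ℤ) : ℝ) * ∑ x, F x * (sg x i * sg x j) := by
  have h1 : ∑ x, (F x * (1 + ((e : ℤ) : ℝ) * (sg x i * sg x j)) +
      F (rs_flp j x) * (1 - ((e : ℤ) : ℝ) * (sg x i * sg x j))) =
      ∑ x, 2 * F (rs_sub i j e x) := Finset.sum_congr rfl (fun x _ => rs_point e F x)
  have h2 : ∑ x, F (rs_flp j x) * (1 - ((e : ℤ) : ℝ) * (sg x i * sg x j)) =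
      ∑ x, F x * (1 + ((e : ℤ) : ℝ) * (sg x i * sg x j)) := by
    rw [← rs_sum_flp j (fun x => F x * (1 + ((e : ℤ) : ℝ) * (sg x i * sg x j)))]
    apply Finset.sum_congr rfl
    intro x _
    rw [rs_sg_flp, rs_sg_flp_ne hij]
    ring
  rw [Finset.sum_add_distrib, h2, ← Finset.mul_sum] at h1
  have h3 : ∑ x, F x * (1 + ((e : ℤ) : ℝ) * (sg x i * sg x j)) =
      ∑ x, F x + ((e : ℤ) : ℝ) * ∑ x, F x * (sg x i * sg x j) := by
    rw [Finset.mul_sum, ← Finset.sum_add_distrib]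
    apply Finset.sum_congr rfl
    intro x _
    ring
  rw [← h3]
  linarith

/-- the quadratic form after the substitution -/
lemma rs_qd {n : ℕ} (A : Fin n → Fin n → ℝ) (hA : SymZ A) {i j : Fin n} (hij : i ≠ j) (e : ℤˣ)
    (x : Cube n) : qd A (rs_sub i j e x) =
      ((e : ℤ) : ℝ) * A i j + qd (rs_A A i j ((e : ℤ) : ℝ)) x := by
  set ε : ℝ := ((e : ℤ) : ℝ) with hε
  have hxi : sg x i * sg x i = 1 := rs_sg_sq x i
  unfold qd
  rw [rs_dec hij (fun k l => A k l * (sg (rs_sub i j e x) k * sg (rs_sub i j e x) l))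
    (fun k => by rw [hA.2 k, zero_mul]),
    rs_dec hij (fun k l => rs_A A i j ε k l * (sg x k * sg x l))
    (fun k => by rw [rs_A_diag A hA, zero_mul])]
  simp only [rs_sub_j, rs_sub_ne hij, rs_A_i, rs_A_i', rs_A_j A hij, rs_A_j' A hij, rs_v_j,
    zero_mul, mul_zero, Finset.sum_const_zero, add_zero, ← hε]
  have e1 : ∑ k, ∑ l, rs_m i j k * rs_m i j l *
      (A k l * (sg (rs_sub i j e x) k * sg (rs_sub i j e x) l)) =
      ∑ k, ∑ l, rs_m i j k * rs_m i j l * (rs_A A i j ε k l * (sg x k * sg x l)) := by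
    apply Finset.sum_congr rfl
    intro k _
    apply Finset.sum_congr rfl
    intro l _
    rw [← mul_assoc, ← mul_assoc (rs_m i j k * rs_m i j l) (rs_A A i j ε k l), rs_mm_A]
    by_cases hk : k = j
    · subst hk
      simp [rs_m_j]
    · by_cases hl : l = j
      · subst hl
        simp [rs_m_j]
      · rw [rs_sub_ne hk, rs_sub_ne hl]
  have e2 : ∀ B : Fin n → ℝ, ∑ l, rs_m i j l * (B l * (sg x i * sg (rs_sub i j e x) l)) =
      sg x i * ∑ l, rs_m i j l * (B l * sg x l) := by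
    intro B
    rw [Finset.mul_sum]
    apply Finset.sum_congr rfl
    intro l _
    by_cases hl : l = j
    · subst hl
      simp [rs_m_j]
    · rw [rs_sub_ne hl]
      ring
  have e3 : ∀ B : Fin n → ℝ, ∑ l, rs_m i j l * (B l * (ε * sg x i * sg (rs_sub i j e x) l)) =
      ε * (sg x i * ∑ l, rs_m i j l * (B l * sg x l)) := by
    intro B
    rw [← e2, Finset.mul_sum]
    apply Finset.sum_congr rfl
    intro l _
    ring
  have e4 : ∀ B : Fin n → ℝ, ∑ l, rs_m i j l * (B l * (sg (rs_sub i j e x) l * sg x i)) =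
      sg x i * ∑ l, rs_m i j l * (B l * sg x l) := by
    intro B
    rw [← e2]
    apply Finset.sum_congr rfl
    intro l _
    ring
  have e5 : ∀ B : Fin n → ℝ, ∑ l, rs_m i j l * (B l * (sg (rs_sub i j e x) l * (ε * sg x i))) =
      ε * (sg x i * ∑ l, rs_m i j l * (B l * sg x l)) := by
    intro B
    rw [← e2, Finset.mul_sum]
    apply Finset.sum_congr rfl
    intro l _
    ring
  have e6 : ∑ l, rs_m i j l * (rs_v A i j ε l * (sg x i * sg x l)) =
      sg x i * (∑ l, rs_m i j l * (A i l * sg x l) + ε * ∑ l, rs_m i j l * (A j l * sg x l)) := by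
    rw [Finset.mul_sum, ← Finset.sum_add_distrib, Finset.mul_sum]
    apply Finset.sum_congr rfl
    intro l _
    rw [← mul_assoc, rs_m_v]
    unfold rs_v
    ring
  have e7 : ∑ k, rs_m i j k * (rs_v A i j ε k * (sg x k * sg x i)) =
      sg x i * (∑ l, rs_m i j l * (A i l * sg x l) + ε * ∑ l, rs_m i j l * (A j l * sg x l)) := by
    rw [← e6]
    apply Finset.sum_congr rfl
    intro l _
    ring
  have e8 : ∑ k, rs_m i j k * (A k i * (sg (rs_sub i j e x) k * sg x i)) =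
      ∑ k, rs_m i j k * (A i k * (sg (rs_sub i j e x) k * sg x i)) := by
    apply Finset.sum_congr rfl
    intro k _
    rw [hA.1 k i]
  have e9 : ∑ k, rs_m i j k * (A k j * (sg (rs_sub i j e x) k * (ε * sg x i))) =
      ∑ k, rs_m i j k * (A j k * (sg (rs_sub i j e x) k * (ε * sg x i))) := by
    apply Finset.sum_congr rfl
    intro k _
    rw [hA.1 k j]
  rw [e8, e9, e1, e2, e3, e4, e5, e6, e7, hA.1 j i]
  linear_combination (ε * A i j) * hxi

lemma rs_infl {n : ℕ} (A : Fin n → Fin n → ℝ) (hA : SymZ A) {i j : Fin n} (hij : i ≠ j)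
    (ε : ℝ) (hε : ε * ε = 1) :
    ∑ k, rs_v A i j ε k ^ 2 = infl A i + infl A j - 2 * A i j ^ 2 + 2 * ε * bb A i j := by
  unfold infl bb
  rw [rs_dec1 hij (fun k => A i k ^ 2), rs_dec1 hij (fun k => A j k ^ 2),
    rs_dec1 hij (fun k => A i k * A k j)]
  have h1 : ∑ k, rs_v A i j ε k ^ 2 = ∑ k, rs_m i j k * A i k ^ 2 + ∑ k, rs_m i j k * A j k ^ 2 +
      2 * ε * ∑ k, rs_m i j k * (A i k * A k j) := by
    rw [Finset.mul_sum, ← Finset.sum_add_distrib, ← Finset.sum_add_distrib]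
    apply Finset.sum_congr rfl
    intro k _
    unfold rs_v
    have e1 : (rs_m i j k * (A i k + ε * A j k)) ^ 2 =
        (rs_m i j k * rs_m i j k) * (A i k + ε * A j k) ^ 2 := by ring
    rw [e1, rs_m_sq, hA.1 k j]
    linear_combination (rs_m i j k * A j k ^ 2) * hε
  rw [h1, hA.2 i, hA.2 j, hA.1 j i]
  ring

theorem t_RS : S_RS := by
  intro n A hA i j hij ε hε
  have hεε : ε * ε = 1 := by rcases hε with rfl | rfl <;> norm_num
  obtain ⟨e, he⟩ : ∃ e : ℤˣ, ((e : ℤ) : ℝ) = ε := by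
    rcases hε with rfl | rfl
    · exact ⟨1, by simp⟩
    · exact ⟨-1, by simp⟩
  refine ⟨rs_A A i j ε, ⟨?_, rs_A_diag A hA i j ε⟩, rs_A_j A hij ε, ?_, ?_, ?_, ?_⟩
  · intro k l
    unfold rs_A
    rw [hA.1 k l]
    ring
  · intro k hk h0 l
    have hv : rs_v A i j ε k = 0 := by
      unfold rs_v
      rw [hA.1 i k, hA.1 j k, h0 i, h0 j]
      ring
    unfold rs_A
    rw [h0 l, hv]
    simp [hk]
  · rw [rs_dec hij (fun k l => rs_A A i j ε k l ^ 2)
      (fun k => by rw [rs_A_diag A hA]; ring),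
      rs_dec hij (fun k l => A k l ^ 2) (fun k => by rw [hA.2]; ring)]
    simp only [rs_mm_A2, rs_A_i, rs_A_i', rs_A_j A hij, rs_A_j' A hij, rs_v_j]
    have h1 : ∑ k, rs_m i j k * rs_v A i j ε k ^ 2 = ∑ k, rs_v A i j ε k ^ 2 := by
      apply Finset.sum_congr rfl
      intro k _
      have := rs_m_v A i j ε k
      calc rs_m i j k * rs_v A i j ε k ^ 2 = (rs_m i j k * rs_v A i j ε k) * rs_v A i j ε k := by
            ring
        _ = _ := by rw [this]; ring
    have h2 := rs_infl A hA hij ε hεε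
    have h3 : infl A i = ∑ k, rs_m i j k * A i k ^ 2 + A i j ^ 2 := by
      unfold infl
      rw [rs_dec1 hij (fun k => A i k ^ 2), hA.2 i]
      ring
    have h4 : infl A j = ∑ k, rs_m i j k * A j k ^ 2 + A i j ^ 2 := by
      unfold infl
      rw [rs_dec1 hij (fun k => A j k ^ 2), hA.2 j, hA.1 j i]
      ring
    have e8 : ∑ k, rs_m i j k * A k i ^ 2 = ∑ k, rs_m i j k * A i k ^ 2 := by
      apply Finset.sum_congr rfl
      intro k _
      rw [hA.1 k i]
    have e9 : ∑ k, rs_m i j k * A k j ^ 2 = ∑ k, rs_m i j k * A j k ^ 2 := by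
      apply Finset.sum_congr rfl
      intro k _
      rw [hA.1 k j]
    rw [e8, e9, h1, h2, h3, h4, hA.1 j i]
    simp only [ne_eq, OfNat.ofNat_ne_zero, not_false_eq_true, zero_pow, mul_zero,
      Finset.sum_const_zero]
    ring
  · have h1 : infl (rs_A A i j ε) i = ∑ k, rs_v A i j ε k ^ 2 := by
      unfold infl
      simp only [rs_A_i]
    rw [h1, rs_infl A hA hij ε hεε]
  · intro c
    have h1 := rs_sum hij e (fun x => |c + qd A x|)
    have h2 : ∑ x, |c + qd A (rs_sub i j e x)| = ∑ x, |c + ε * A i j + qd (rs_A A i j ε) x| := by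
      apply Finset.sum_congr rfl
      intro x _
      rw [rs_qd A hA hij e x, he, add_assoc]
    rw [h2, he] at h1
    unfold ex
    rw [h1]
    ring

end H651CB
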