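import Pool.Agent.H651R2.CB.Defs
set_option autoImplicit false

/-!
# SM: sums over pairs
-/

namespace H651CB.SM

lemma off {n : ℕ} (F : Fin n → Fin n → ℝ) :
    ∑ i, ∑ j, (if i = j then 0 else F i j) = ∑ i, ∑ j, F i j - ∑ i, F i i := by
  rw [← Finset.sum_sub_distrib]
  apply Finset.sum_congr rfl
  intro i _
  have h : ∀ j, (if i = j then 0 else F i j) = F i j - (if i = j then F i j else 0) := by
    intro j
    split_ifs <;> simp
  simp_rw [h]
  rw [Finset.sum_sub_distrib]
  simp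

lemma bb_diag {n : ℕ} (A : Fin n → Fin n → ℝ) (hA : SymZ A) (i : Fin n) :
    bb A i i = infl A i := by
  unfold bb infl
  exact Finset.sum_congr rfl fun k _ => by rw [hA.1 k i, sq]

lemma infl' {n : ℕ} (A : Fin n → Fin n → ℝ) (hA : SymZ A) (j : Fin n) :
    ∑ i, A i j ^ 2 = infl A j := by
  unfold infl
  exact Finset.sum_congr rfl fun k _ => by rw [hA.1 k j]

end H651CB.SM

namespace H651CB

theorem t_SM : S_SM := by
  intro n A hA h2
  have hI : ∑ i, infl A i = 2 := h2
  refine ⟨?_, ?_, ?_⟩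
  · rw [SM.off]
    have h1 : ∑ i, ∑ j, infl A i * infl A j = 4 := by
      rw [← Finset.sum_mul_sum, hI]
      norm_num
    rw [h1]
    congr 1
    exact Finset.sum_congr rfl fun i _ => (sq _).symm
  · rw [SM.off]
    congr 1
    exact Finset.sum_congr rfl fun i _ => by rw [SM.bb_diag A hA]
  · rw [SM.off]
    have h1 : ∑ i, ∑ j, (infl A i * infl A j * (infl A i + infl A j)
        + A i j ^ 2 * (infl A i ^ 2 + infl A j ^ 2)) =
        ∑ i, ∑ j, infl A i ^ 2 * infl A j + ∑ i, ∑ j, infl A i * infl A j ^ 2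
        + ∑ i, ∑ j, infl A i ^ 2 * A i j ^ 2 + ∑ i, ∑ j, infl A j ^ 2 * A i j ^ 2 := by
      simp_rw [← Finset.sum_add_distrib]
      exact Finset.sum_congr rfl fun i _ => Finset.sum_congr rfl fun j _ => by ring
    have h3 : ∑ i, ∑ j, infl A i ^ 2 * infl A j = 2 * ∑ i, infl A i ^ 2 := by
      rw [← Finset.sum_mul_sum, hI]
      ring
    have h4 : ∑ i, ∑ j, infl A i * infl A j ^ 2 = 2 * ∑ i, infl A i ^ 2 := by
      rw [← Finset.sum_mul_sum, hI]
    have h5 : ∑ i, ∑ j, infl A i ^ 2 * A i j ^ 2 = ∑ i, infl A i ^ 3 := by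
      apply Finset.sum_congr rfl
      intro i _
      rw [← Finset.mul_sum]
      change infl A i ^ 2 * infl A i = _
      ring
    have h6 : ∑ i, ∑ j, infl A j ^ 2 * A i j ^ 2 = ∑ i, infl A i ^ 3 := by
      rw [Finset.sum_comm]
      apply Finset.sum_congr rfl
      intro j _
      rw [← Finset.mul_sum, SM.infl' A hA]
      ring
    have h7 : ∑ i, (infl A i * infl A i * (infl A i + infl A i)
        + A i i ^ 2 * (infl A i ^ 2 + infl A i ^ 2)) = 2 * ∑ i, infl A i ^ 3 := by
      rw [Finset.mul_sum]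
      exact Finset.sum_congr rfl fun i _ => by rw [hA.2 i]; ring
    rw [h1, h3, h4, h5, h6, h7]
    ring

end H651CB
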