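import Pool.Agent.H651R2.CB.Defs
set_option autoImplicit false

/-!
# SP: top eigenvalue of a symmetric matrix and the trace of the fourth power
-/

namespace H651CB

theorem sp_trace {n : ℕ} (M : Matrix (Fin n) (Fin n) ℝ) (hM : M.IsHermitian) (p : ℕ) :
    (M ^ p).trace = ∑ i, hM.eigenvalues i ^ p := by
  have h1 : M ^ p = Unitary.conjStarAlgAut ℝ _ hM.eigenvectorUnitary
      ((Matrix.diagonal (RCLike.ofReal ∘ hM.eigenvalues)) ^ p) := by
    rw [map_pow]
    congr 1
    exact hM.spectral_theorem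
  rw [h1, Unitary.conjStarAlgAut_apply, Matrix.trace_mul_comm, ← mul_assoc]
  simp [Matrix.diagonal_pow, Matrix.trace_diagonal]

theorem t_SP : S_SP := by
  intro n A hA h2
  set M : Matrix (Fin n) (Fin n) ℝ := Matrix.of A with hMdef
  have hM : M.IsHermitian := by
    ext i j
    simp [Matrix.conjTranspose_apply, hMdef, hA i j]
  have hbb : ∀ i j, (M ^ 2) i j = bb A i j := by
    intro i j
    rw [pow_two, Matrix.mul_apply]
    rfl
  have hbs : ∀ i j, bb A i j = bb A j i := by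
    intro i j
    unfold bb
    exact Finset.sum_congr rfl fun k _ => by rw [hA i k, hA k j]; ring
  have ht2 : ∑ i, hM.eigenvalues i ^ 2 = 2 := by
    rw [← sp_trace M hM 2, ← h2, Matrix.trace]
    refine Finset.sum_congr rfl fun i _ => ?_
    rw [Matrix.diag_apply, hbb]
    unfold bb
    exact Finset.sum_congr rfl fun j _ => by rw [hA j i]; ring
  have ht4 : ∑ i, hM.eigenvalues i ^ 4 = ∑ i, ∑ j, bb A i j ^ 2 := by
    rw [← sp_trace M hM 4, Matrix.trace]
    refine Finset.sum_congr rfl fun i _ => ?_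
    rw [Matrix.diag_apply, show 4 = 2 + 2 by norm_num, pow_add, Matrix.mul_apply]
    refine Finset.sum_congr rfl fun j _ => ?_
    rw [hbb, hbb, hbs j i]
    ring
  have hne : Nonempty (Fin n) := by
    by_contra hcon
    rw [not_nonempty_iff] at hcon
    rw [Finset.sum_of_isEmpty] at ht2
    norm_num at ht2
  obtain ⟨k0, -, hk0⟩ := Finset.exists_max_image Finset.univ (fun k => |hM.eigenvalues k|)
    (Finset.univ_nonempty_iff.mpr hne)
  have hk0' : ∀ k, hM.eigenvalues k ^ 2 ≤ hM.eigenvalues k0 ^ 2 := by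
    intro k
    rw [sq_le_sq]
    exact hk0 k (Finset.mem_univ k)
  have hsplit2 := Finset.add_sum_erase Finset.univ (fun k => hM.eigenvalues k ^ 2)
    (Finset.mem_univ k0)
  have hsplit4 := Finset.add_sum_erase Finset.univ (fun k => hM.eigenvalues k ^ 4)
    (Finset.mem_univ k0)
  rw [ht2] at hsplit2
  have hrest0 : 0 ≤ ∑ k ∈ Finset.univ.erase k0, hM.eigenvalues k ^ 2 :=
    Finset.sum_nonneg fun k _ => sq_nonneg _
  have hrest4 : ∑ k ∈ Finset.univ.erase k0, hM.eigenvalues k ^ 4 ≤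
      (∑ k ∈ Finset.univ.erase k0, hM.eigenvalues k ^ 2) ^ 2 := by
    rw [pow_two, Finset.sum_mul]
    refine Finset.sum_le_sum fun k hk => ?_
    calc hM.eigenvalues k ^ 4 = hM.eigenvalues k ^ 2 * hM.eigenvalues k ^ 2 := by ring
      _ ≤ _ := mul_le_mul_of_nonneg_left
        (Finset.single_le_sum (f := fun k => hM.eigenvalues k ^ 2) (fun k _ => sq_nonneg _) hk)
        (sq_nonneg _)
  have hsq : |hM.eigenvalues k0| ^ 2 = hM.eigenvalues k0 ^ 2 := sq_abs _
  have hsq4 : |hM.eigenvalues k0| ^ 4 = hM.eigenvalues k0 ^ 4 := by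
    calc |hM.eigenvalues k0| ^ 4 = (|hM.eigenvalues k0| ^ 2) ^ 2 := by ring
      _ = _ := by rw [hsq]; ring
  obtain ⟨s, hs, hs'⟩ : ∃ s : ℝ, (s = 1 ∨ s = -1) ∧
      s * |hM.eigenvalues k0| = hM.eigenvalues k0 := by
    rcases le_total 0 (hM.eigenvalues k0) with h | h
    · exact ⟨1, Or.inl rfl, by rw [abs_of_nonneg h, one_mul]⟩
    · exact ⟨-1, Or.inr rfl, by rw [abs_of_nonpos h]; ring⟩
  refine ⟨|hM.eigenvalues k0|, s, fun i => hM.eigenvectorBasis k0 i, abs_nonneg _, ?_, hs, ?_, ?_,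
    ?_, ?_⟩
  · rw [hsq]; linarith
  · have h := hM.eigenvectorBasis.orthonormal.1 k0
    rw [EuclideanSpace.norm_eq, Real.sqrt_eq_one] at h
    rw [← h]
    exact Finset.sum_congr rfl fun i _ => by rw [Real.norm_eq_abs, sq_abs]
  · intro i
    rw [hs']
    have h := congrFun (hM.mulVec_eigenvectorBasis k0) i
    simp only [Matrix.mulVec, dotProduct, Pi.smul_apply, smul_eq_mul] at h
    exact h
  · rw [← ht4, hsq]
    calc ∑ i, hM.eigenvalues i ^ 4 ≤ ∑ i, hM.eigenvalues k0 ^ 2 * hM.eigenvalues i ^ 2 := by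
          refine Finset.sum_le_sum fun i _ => ?_
          have h1 := mul_le_mul_of_nonneg_right (hk0' i) (sq_nonneg (hM.eigenvalues i))
          calc hM.eigenvalues i ^ 4 = hM.eigenvalues i ^ 2 * hM.eigenvalues i ^ 2 := by ring
            _ ≤ _ := h1
      _ = 2 * hM.eigenvalues k0 ^ 2 := by rw [← Finset.mul_sum, ht2]; ring
  · rw [← ht4, ← hsplit4, hsq4, hsq]
    have h1 : ∑ k ∈ Finset.univ.erase k0, hM.eigenvalues k ^ 2 = 2 - hM.eigenvalues k0 ^ 2 := by
      linarith
    rw [h1] at hrest4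
    linarith

end H651CB
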