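import Pool.Agent.H651R2.CB.Defs
set_option autoImplicit false

/-!
# TF: lower bound of the first moment by the product test function
-/

namespace H651CB

theorem tf_ex_add {n : ℕ} (F G : Cube n → ℝ) : ex (fun x => F x + G x) = ex F + ex G := by
  unfold ex
  rw [Finset.sum_add_distrib]
  ring

theorem tf_ex_mul {n : ℕ} (a : ℝ) (F : Cube n → ℝ) : ex (fun x => a * F x) = a * ex F := by
  unfold ex
  rw [← Finset.mul_sum]
  ring

theorem tf_ex_sum {n : ℕ} {ι : Type*} (s : Finset ι) (F : ι → Cube n → ℝ) :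
    ex (fun x => ∑ i ∈ s, F i x) = ∑ i ∈ s, ex (F i) := by
  unfold ex
  rw [Finset.sum_comm, Finset.mul_sum]

theorem tf_ex_mono {n : ℕ} (F G : Cube n → ℝ) (h : ∀ x, F x ≤ G x) : ex F ≤ ex G := by
  unfold ex
  exact mul_le_mul_of_nonneg_left (Finset.sum_le_sum fun x _ => h x) (by positivity)

theorem tf_ex_fg {n : ℕ} (A : Fin n → Fin n → ℝ) (c : ℝ) (g : Cube n → ℝ) :
    ex (fun x => (c + qd A x) * g x) =
      c * ex g + 1 / 2 * ∑ i, ∑ j, A i j * ex (fun x => sg x i * sg x j * g x) := by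
  have h1 : (fun x : Cube n => (c + qd A x) * g x) = fun x => c * g x +
      1 / 2 * ∑ i, ∑ j, A i j * (sg x i * sg x j * g x) := by
    funext x
    unfold qd
    rw [add_mul, mul_assoc (1 / 2 : ℝ), Finset.sum_mul]
    congr 2
    refine Finset.sum_congr rfl fun i _ => ?_
    rw [Finset.sum_mul]
    refine Finset.sum_congr rfl fun j _ => ?_
    ring
  rw [h1, tf_ex_add, tf_ex_mul, tf_ex_mul, tf_ex_sum]
  congr 2
  refine Finset.sum_congr rfl fun i _ => ?_
  rw [tf_ex_sum]
  refine Finset.sum_congr rfl fun j _ => ?_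
  rw [tf_ex_mul]

/-- expectation of the quadratic form against the test function -/
theorem tf_test (hCO : S_CO) {n : ℕ} (A : Fin n → Fin n → ℝ) (hA : SymZ A) (c : ℝ)
    (t : Fin n → ℝ) :
    ex (fun x => (c + qd A x) * Real.cos (∑ k, t k * sg x k)) =
      c * ∏ k, Real.cos (t k) - 1 / 2 * ∑ i, ∑ j, A i j * (if i = j then 0 else
        Real.sin (t i) * Real.sin (t j) * ∏ k ∈ (Finset.univ.erase i).erase j, Real.cos (t k)) := by
  rw [tf_ex_fg, (hCO n t).1, sub_eq_add_neg, ← mul_neg, ← Finset.sum_neg_distrib]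
  congr 2
  refine Finset.sum_congr rfl fun i _ => ?_
  rw [← Finset.sum_neg_distrib]
  refine Finset.sum_congr rfl fun j _ => ?_
  by_cases h : i = j
  · rw [h, hA.2 j]; simp
  · rw [if_neg h, (hCO n t).2 i j h]; ring

theorem tf_cs {n : ℕ} (A X : Fin n → Fin n → ℝ) (c q : ℝ)
    (hA : ∑ i, ∑ j, A i j ^ 2 = 2) :
    (c * q - 1 / 2 * ∑ i, ∑ j, A i j * X i j) ^ 2 ≤
      (c ^ 2 + 1) * (q ^ 2 + 1 / 2 * ∑ i, ∑ j, X i j ^ 2) := by
  have h1 : (∑ i, ∑ j, A i j * X i j) ^ 2 ≤ 2 * ∑ i, ∑ j, X i j ^ 2 := by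
    rw [← hA, ← Finset.sum_product', ← Finset.sum_product', ← Finset.sum_product']
    exact Finset.sum_mul_sq_le_sq_mul_sq _ _ _
  set Y := ∑ i, ∑ j, A i j * X i j
  set Z := ∑ i, ∑ j, X i j ^ 2
  -- `(c q - Y/2)^2 ≤ (c^2+1) (q^2 + Z/2)`, `Y^2 ≤ 2 Z`
  nlinarith [sq_nonneg (c * (Y / 2) + q), sq_nonneg c, mul_nonneg (sq_nonneg c)
    (sub_nonneg.mpr h1)]

theorem tf_cos3 (θ : ℝ) : Real.cos (3 * Real.arctan θ) ^ 2 =
    (1 - 3 * θ ^ 2) ^ 2 / (1 + θ ^ 2) ^ 3 := by
  have h1 : Real.cos (Real.arctan θ) ^ 2 = 1 / (1 + θ ^ 2) := Real.cos_sq_arctan θ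
  have h2 : 0 < 1 + θ ^ 2 := by positivity
  rw [Real.cos_three_mul]
  have h3 : (4 * Real.cos (Real.arctan θ) ^ 3 - 3 * Real.cos (Real.arctan θ)) ^ 2 =
      Real.cos (Real.arctan θ) ^ 2 * (4 * Real.cos (Real.arctan θ) ^ 2 - 3) ^ 2 := by ring
  rw [h3, h1]
  field_simp
  ring

theorem t_TF (hCO : S_CO) (hPP : S_PP) (hGX : S_GX) (hHX : S_HX) (hNX : S_NX) : S_TF := by
  intro n A c lam u hA hA2 hu hu2 hlam hc hex
  by_cases hz : 9 / 10 * lam - c ≤ 0
  · linarith
  rw [not_le] at hz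
  set θ : Fin n → ℝ := fun k => Real.sqrt (9 / 5) * u k with hθ
  set t : Fin n → ℝ := fun k => Real.arctan (θ k) with ht
  have hs95 : Real.sqrt (9 / 5) ^ 2 = 9 / 5 := Real.sq_sqrt (by norm_num)
  have hθ2 : ∀ k, θ k ^ 2 = 9 / 5 * u k ^ 2 := by
    intro k; rw [hθ]; simp only; rw [mul_pow, hs95]
  have hθs : ∑ k, θ k ^ 2 = 9 / 5 := by
    simp_rw [hθ2]; rw [← Finset.mul_sum, hu]; ring
  have hcpos : ∀ k, 0 < Real.cos (t k) := fun k => Real.cos_arctan_pos _
  set P1 := ∏ k, Real.cos (t k) with hP1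
  have hP1pos : 0 < P1 := Finset.prod_pos fun k _ => hcpos k
  have hsin : ∀ k, Real.sin (t k) = θ k * Real.cos (t k) := by
    intro k
    have h := Real.tan_arctan (θ k)
    rw [Real.tan_eq_sin_div_cos, div_eq_iff (Real.cos_arctan_pos _).ne'] at h
    exact h
  -- the first expectation
  have hE1 : ex (fun x => (c + qd A x) * Real.cos (∑ k, t k * sg x k)) =
      P1 * (c - 9 / 10 * lam) := by
    rw [tf_test hCO A hA c t]
    have h1 : ∀ i j, A i j * (if i = j then 0 else
        Real.sin (t i) * Real.sin (t j) * ∏ k ∈ (Finset.univ.erase i).erase j, Real.cos (t k)) =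
        (9 / 5 * P1) * (A i j * (u i * u j)) := by
      intro i j
      by_cases h : i = j
      · rw [h, hA.2 j]; simp
      · rw [if_neg h]
        have h2 : P1 = Real.cos (t i) * (Real.cos (t j) *
            ∏ k ∈ (Finset.univ.erase i).erase j, Real.cos (t k)) := by
          rw [Finset.mul_prod_erase _ (fun k => Real.cos (t k))
              (Finset.mem_erase.mpr ⟨Ne.symm h, Finset.mem_univ j⟩),
            Finset.mul_prod_erase _ (fun k => Real.cos (t k)) (Finset.mem_univ i)]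
        rw [hsin, hsin, h2]
        have h3 : θ i * θ j = 9 / 5 * (u i * u j) := by
          rw [hθ]; simp only
          calc Real.sqrt (9 / 5) * u i * (Real.sqrt (9 / 5) * u j) =
              Real.sqrt (9 / 5) ^ 2 * (u i * u j) := by ring
            _ = _ := by rw [hs95]
        calc A i j * (θ i * Real.cos (t i) * (θ j * Real.cos (t j)) *
              ∏ k ∈ (Finset.univ.erase i).erase j, Real.cos (t k)) =
            A i j * (θ i * θ j) * (Real.cos (t i) * (Real.cos (t j) *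
              ∏ k ∈ (Finset.univ.erase i).erase j, Real.cos (t k))) := by ring
          _ = _ := by rw [h3]; ring
    simp_rw [h1]
    simp_rw [← Finset.mul_sum]
    rw [hlam]
    ring
  -- the product is large
  have hP1ge : Real.exp (-(9 / 10)) ≤ P1 := by
    have h1 : Real.exp (-(9 / 5)) ≤ P1 ^ 2 := by
      rw [hP1, ← Finset.prod_pow, ← hθs, ← Finset.sum_neg_distrib, Real.exp_sum]
      refine Finset.prod_le_prod (fun k _ => (Real.exp_pos _).le) fun k _ => ?_
      have h2 : Real.cos (t k) ^ 2 = 1 / (1 + θ k ^ 2) := Real.cos_sq_arctan _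
      rw [h2, Real.exp_neg, one_div]
      refine inv_anti₀ (by positivity) ?_
      have := Real.add_one_le_exp (θ k ^ 2)
      linarith
    have h2 : Real.exp (-(9 / 5)) = Real.exp (-(9 / 10)) ^ 2 := by
      rw [← Real.exp_nat_mul]; norm_num
    rw [h2] at h1
    exact (pow_le_pow_iff_left₀ (Real.exp_pos _).le hP1pos.le (by norm_num)).mp h1
  -- the second expectation
  have hE3 : |ex (fun x => (c + qd A x) * Real.cos (∑ k, (3 * t k) * sg x k))| ≤
      Real.sqrt (53 / 50) * (Real.exp (-6) / (3 / 100)) := by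
    rw [tf_test hCO A hA c (fun k => 3 * t k)]
    set X : Fin n → Fin n → ℝ := fun i j => if i = j then 0 else
        Real.sin (3 * t i) * Real.sin (3 * t j) *
          ∏ k ∈ (Finset.univ.erase i).erase j, Real.cos (3 * t k) with hX
    have h1 := tf_cs A X c (∏ k, Real.cos (3 * t k)) hA2
    have h2 := hPP n (fun k => Real.cos (3 * t k) ^ 2) (fun k => Real.sin (3 * t k) ^ 2) (3 / 100)
      (fun k => sq_nonneg _) (fun k => sq_nonneg _) (by norm_num) (by norm_num)
    have h3 : (∏ k, Real.cos (3 * t k)) ^ 2 + 1 / 2 * ∑ i, ∑ j, X i j ^ 2 =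
        ∏ k, Real.cos (3 * t k) ^ 2 + 1 / 2 * ∑ i, ∑ j, (if i = j then 0 else
          Real.sin (3 * t i) ^ 2 * Real.sin (3 * t j) ^ 2 *
            ∏ k ∈ (Finset.univ.erase i).erase j, Real.cos (3 * t k) ^ 2) := by
      rw [← Finset.prod_pow]
      congr 2
      refine Finset.sum_congr rfl fun i _ => Finset.sum_congr rfl fun j _ => ?_
      rw [hX]
      simp only
      split_ifs
      · ring
      · rw [mul_pow, mul_pow, Finset.prod_pow]
    rw [← h3] at h2
    have h4 : ∏ k, (Real.cos (3 * t k) ^ 2 + 3 / 100 * Real.sin (3 * t k) ^ 2) ≤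
        Real.exp (-12) := by
      have h5 : (-12 : ℝ) = ∑ k, -(20 / 3 * θ k ^ 2) := by
        rw [Finset.sum_neg_distrib, ← Finset.mul_sum, hθs]; norm_num
      rw [h5, Real.exp_sum]
      refine Finset.prod_le_prod (fun k _ => by positivity) fun k _ => ?_
      have h6 := hGX (θ k ^ 2) (sq_nonneg _) (by
        rw [hθ2]
        have := hu2 k
        linarith)
      rw [← tf_cos3] at h6
      have h7 := Real.sin_sq_add_cos_sq (3 * t k)
      have h8 : Real.cos (3 * t k) ^ 2 = Real.cos (3 * Real.arctan (θ k)) ^ 2 := rfl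
      rw [← h8] at h6
      linarith
    have h5 : (c * (∏ k, Real.cos (3 * t k)) - 1 / 2 * ∑ i, ∑ j, A i j * X i j) ^ 2 ≤
        (Real.sqrt (53 / 50) * (Real.exp (-6) / (3 / 100))) ^ 2 := by
      have h6 : (Real.sqrt (53 / 50) * (Real.exp (-6) / (3 / 100))) ^ 2 =
          53 / 50 * (Real.exp (-12) / (3 / 100) ^ 2) := by
        rw [mul_pow, div_pow, Real.sq_sqrt (by norm_num), ← Real.exp_nat_mul]
        norm_num
      rw [h6]
      refine h1.trans ?_
      have h7 : (∏ k, Real.cos (3 * t k)) ^ 2 + 1 / 2 * ∑ i, ∑ j, X i j ^ 2 ≤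
          Real.exp (-12) / (3 / 100) ^ 2 := by
        rw [le_div_iff₀ (by norm_num)]
        linarith
      exact mul_le_mul (by linarith) h7 (by positivity) (by norm_num)
    exact abs_le_of_sq_le_sq h5 (by positivity)
  -- the test function
  have hT : ∀ x : Cube n, -((c + qd A x) * (23 / 20 * Real.cos (∑ k, t k * sg x k) -
      33 / 200 * Real.cos (∑ k, (3 * t k) * sg x k))) ≤ |c + qd A x| := by
    intro x
    have h1 : Real.cos (∑ k, (3 * t k) * sg x k) = 4 * Real.cos (∑ k, t k * sg x k) ^ 3 -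
        3 * Real.cos (∑ k, t k * sg x k) := by
      rw [← Real.cos_three_mul, Finset.mul_sum]
      congr 1
      exact Finset.sum_congr rfl fun k _ => by ring
    rw [h1]
    have h2 := hHX (Real.cos (∑ k, t k * sg x k)) (Real.abs_cos_le_one _)
    calc -((c + qd A x) * (23 / 20 * Real.cos (∑ k, t k * sg x k) -
        33 / 200 * (4 * Real.cos (∑ k, t k * sg x k) ^ 3 - 3 * Real.cos (∑ k, t k * sg x k)))) ≤
        |(c + qd A x) * (23 / 20 * Real.cos (∑ k, t k * sg x k) -
        33 / 200 * (4 * Real.cos (∑ k, t k * sg x k) ^ 3 - 3 * Real.cos (∑ k, t k * sg x k)))| :=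
          neg_le_abs _
      _ ≤ |c + qd A x| * 1 := by
          rw [abs_mul]
          exact mul_le_mul_of_nonneg_left h2 (abs_nonneg _)
      _ = _ := mul_one _
  have hfin := tf_ex_mono _ _ hT
  have hsplit : ex (fun x => -((c + qd A x) * (23 / 20 * Real.cos (∑ k, t k * sg x k) -
      33 / 200 * Real.cos (∑ k, (3 * t k) * sg x k)))) =
      -(23 / 20) * ex (fun x => (c + qd A x) * Real.cos (∑ k, t k * sg x k)) +
        33 / 200 * ex (fun x => (c + qd A x) * Real.cos (∑ k, (3 * t k) * sg x k)) := by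
    rw [← tf_ex_mul, ← tf_ex_mul, ← tf_ex_add]
    congr 1
    funext x
    ring
  rw [hsplit, hE1] at hfin
  have h9 := (abs_le.mp hE3).1
  refine hNX _ ?_
  have h10 : Real.exp (-(9 / 10)) * (9 / 10 * lam - c) ≤ P1 * (9 / 10 * lam - c) :=
    mul_le_mul_of_nonneg_right hP1ge hz.le
  nlinarith

end H651CB
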