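import Pool.Agent.H651R2.CB.KH
import Pool.Agent.H651R2.CB.EN
import Pool.Agent.H651R2.CB.RS
import Pool.Agent.H651R2.CB.LB
import Pool.Agent.H651R2.CB.PR
import Pool.Agent.H651R2.CB.SP
import Pool.Agent.H651R2.CB.DV
import Pool.Agent.H651R2.CB.SM
import Pool.Agent.H651R2.CB.CO
import Pool.Agent.H651R2.CB.PP
import Pool.Agent.H651R2.CB.GX
import Pool.Agent.H651R2.CB.HX
import Pool.Agent.H651R2.CB.NX
import Pool.Agent.H651R2.CB.TF
import Pool.Agent.H651R2.CB.FI
import Pool.Agent.H651R2.CB.ST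
import Pool.Agent.H651R2.CB.MN
set_option autoImplicit false

/-!
# Main inequality: `‖Q‖₂ ≤ 2 E|c + Q|` for every quadratic form `Q` on the cube
-/

namespace H651CB

theorem main_ineq : S_MN :=
  t_MN (t_ST t_EN t_RS (t_LB t_KH) t_PR t_SP t_DV t_SM (t_TF t_CO t_PP t_GX t_HX t_NX) t_FI)

end H651CB
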