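import Mathlib
set_option autoImplicit false

/-!
# The L^2-L^1 constant of homogeneous quadratic forms on the discrete cube is 2
Definitions and the exact statements `S_...` of all steps (proved in separate files).
-/

namespace H651CB

/-- The discrete cube `{-1,1}^n`. -/
abbrev Cube (n : ℕ) := Fin n → ℤˣ

/-- the `i`-th coordinate as a real number -/
def sg {n : ℕ} (x : Cube n) (i : Fin n) : ℝ := ((x i : ℤ) : ℝ)

/-- average over the cube -/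
noncomputable def ex {n : ℕ} (F : Cube n → ℝ) : ℝ := ((2 : ℝ) ^ n)⁻¹ * ∑ x, F x

/-- linear forms -/
def lin {n : ℕ} (v : Fin n → ℝ) (x : Cube n) : ℝ := ∑ i, v i * sg x i

/-- quadratic forms with matrix `A` -/
noncomputable def qd {n : ℕ} (A : Fin n → Fin n → ℝ) (x : Cube n) : ℝ :=
  1 / 2 * ∑ i, ∑ j, A i j * (sg x i * sg x j)

/-- symmetric with zero diagonal -/
def SymZ {n : ℕ} (A : Fin n → Fin n → ℝ) : Prop := (∀ i j, A i j = A j i) ∧ ∀ i, A i i = 0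

/-- influence of the coordinate `i` -/
def infl {n : ℕ} (A : Fin n → Fin n → ℝ) (i : Fin n) : ℝ := ∑ j, A i j ^ 2

/-- entries of the square of `A` -/
def bb {n : ℕ} (A : Fin n → Fin n → ℝ) (i j : Fin n) : ℝ := ∑ k, A i k * A k j

/-- KH: Khintchine's inequality with the best constant (Szarek). -/
def S_KH : Prop := ∀ (n : ℕ) (v : Fin n → ℝ),
  ∑ i, v i ^ 2 ≤ 2 * (ex (fun x => |lin v x|)) ^ 2

/-- EN: energy inequality for the absolute value (Kato) and Walsh levels. -/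
def S_EN : Prop := ∀ (n : ℕ) (A : Fin n → Fin n → ℝ) (c : ℝ), SymZ A →
  4 * c ^ 2 + ∑ i, ∑ j, A i j ^ 2 ≤ 4 * (ex (fun x => |c + qd A x|)) ^ 2
    + ∑ i, ∑ j, (if i = j then 0 else ex (fun x => |c + qd A x| * (sg x i * sg x j))) ^ 2

/-- RS: the substitution `x_j := ε x_i`. -/
def S_RS : Prop := ∀ (n : ℕ) (A : Fin n → Fin n → ℝ), SymZ A → ∀ i j : Fin n, i ≠ j →
  ∀ ε : ℝ, (ε = 1 ∨ ε = -1) → ∃ A' : Fin n → Fin n → ℝ, SymZ A' ∧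
    (∀ k, A' j k = 0) ∧
    (∀ k, k ≠ i → (∀ l, A k l = 0) → ∀ l, A' k l = 0) ∧
    ∑ k, ∑ l, A' k l ^ 2 = ∑ k, ∑ l, A k l ^ 2 - 2 * A i j ^ 2 + 4 * ε * bb A i j ∧
    infl A' i = infl A i + infl A j - 2 * A i j ^ 2 + 2 * ε * bb A i j ∧
    ∀ c : ℝ, ex (fun x => |c + ε * A i j + qd A' x|)
      = ex (fun x => |c + qd A x|) + ε * ex (fun x => |c + qd A x| * (sg x i * sg x j))

/-- LB: simple lower bounds for the first moment. -/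
def S_LB : Prop := ∀ (n : ℕ) (A : Fin n → Fin n → ℝ) (c : ℝ), SymZ A →
  |c| ≤ ex (fun x => |c + qd A x|) ∧
  ∀ i, infl A i ≤ 2 * (ex (fun x => |c + qd A x|)) ^ 2

/-- PR: the inequality for a pair of coordinates (`a` is the square of the coefficient,
`x, w` the influences, `b` the absolute value of the entry of `A^2`). -/
def S_PR : Prop := ∀ x w a b p : ℝ, 0 ≤ a → a ≤ x → a ≤ w → x ≤ 1 / 2 → w ≤ 1 / 2 → 0 ≤ b →
  b ^ 2 ≤ (x - a) * (w - a) → 0 ≤ p → p ≤ 1 / 2 → 4 * p * (1 - p) = a + 2 * b →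
  x + w < 1 / 2 - 2 * p + 6 * p ^ 2 + 3 * a →
  81 * p ^ 2 ≤ 25 * (x * w) ∧
  200 * p ^ 2 ≤ 20 * (x * w) + 35 * b ^ 2 + 21 * (x * w * (x + w) + a * (x ^ 2 + w ^ 2))

/-- SP: top eigenvalue of a symmetric matrix and the trace of the fourth power. -/
def S_SP : Prop := ∀ (n : ℕ) (A : Fin n → Fin n → ℝ), (∀ i j, A i j = A j i) →
  ∑ i, ∑ j, A i j ^ 2 = 2 →
  ∃ (lam s : ℝ) (u : Fin n → ℝ), 0 ≤ lam ∧ lam ^ 2 ≤ 2 ∧ (s = 1 ∨ s = -1) ∧ ∑ i, u i ^ 2 = 1 ∧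
    (∀ i, ∑ j, A i j * u j = s * lam * u i) ∧
    ∑ i, ∑ j, bb A i j ^ 2 ≤ 2 * lam ^ 2 ∧
    ∑ i, ∑ j, bb A i j ^ 2 ≤ lam ^ 4 + (2 - lam ^ 2) ^ 2

/-- DV: eigenvector entries and the sum of squares of the influences. -/
def S_DV : Prop := ∀ (n : ℕ) (A : Fin n → Fin n → ℝ) (u : Fin n → ℝ) (mu : ℝ), SymZ A →
  ∑ i, ∑ j, A i j ^ 2 = 2 → (∀ i, infl A i ≤ 1 / 2) → ∑ i, u i ^ 2 = 1 →
  (∀ i, ∑ j, A i j * u j = mu * u i) →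
  (∀ i, u i ^ 2 * (2 * mu ^ 2 + 1) ≤ 1) ∧
  ∑ i, infl A i ^ 2 ≤ (mu ^ 2 + 1 / 2) * (2 - mu ^ 2)

/-- SM: sums over pairs. -/
def S_SM : Prop := ∀ (n : ℕ) (A : Fin n → Fin n → ℝ), SymZ A → ∑ i, ∑ j, A i j ^ 2 = 2 →
  (∑ i, ∑ j, (if i = j then 0 else infl A i * infl A j) = 4 - ∑ i, infl A i ^ 2) ∧
  (∑ i, ∑ j, (if i = j then 0 else bb A i j ^ 2)
    = ∑ i, ∑ j, bb A i j ^ 2 - ∑ i, infl A i ^ 2) ∧
  (∑ i, ∑ j, (if i = j then 0 else infl A i * infl A j * (infl A i + infl A j)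
      + A i j ^ 2 * (infl A i ^ 2 + infl A j ^ 2)) = 4 * ∑ i, infl A i ^ 2)

/-- CO: expectations of the product test function. -/
def S_CO : Prop := ∀ (n : ℕ) (t : Fin n → ℝ),
  ex (fun x => Real.cos (∑ k, t k * sg x k)) = ∏ k, Real.cos (t k) ∧
  ∀ i j, i ≠ j → ex (fun x => sg x i * sg x j * Real.cos (∑ k, t k * sg x k))
    = -(Real.sin (t i) * Real.sin (t j) * ∏ k ∈ (Finset.univ.erase i).erase j, Real.cos (t k))

/-- PP: lower bound of a product by its terms of degree 0 and 2. -/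
def S_PP : Prop := ∀ (n : ℕ) (p q : Fin n → ℝ) (ρ : ℝ), (∀ k, 0 ≤ p k) → (∀ k, 0 ≤ q k) →
  0 ≤ ρ → ρ ≤ 1 →
  ρ ^ 2 * (∏ k, p k + 1 / 2 * ∑ i, ∑ j, (if i = j then 0 else
    q i * q j * ∏ k ∈ (Finset.univ.erase i).erase j, p k)) ≤ ∏ k, (p k + ρ * q k)

/-- GX: one-variable bound. -/
def S_GX : Prop := ∀ y : ℝ, 0 ≤ y → y ≤ 3 / 7 →
  3 / 100 + 97 / 100 * ((1 - 3 * y) ^ 2 / (1 + y) ^ 3) ≤ Real.exp (-(20 / 3 * y))

/-- HX: the test function is bounded by 1. -/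
def S_HX : Prop := ∀ C : ℝ, |C| ≤ 1 → |23 / 20 * C - 33 / 200 * (4 * C ^ 3 - 3 * C)| ≤ 1

/-- NX: numerical constants. -/
def S_NX : Prop := ∀ z : ℝ,
  23 / 20 * Real.exp (-(9 / 10)) * z - 33 / 200 * (Real.sqrt (53 / 50) * (Real.exp (-6) / (3 / 100)))
    ≤ 1 / 2 → z ≤ 11 / 10

/-- TF: lower bound of the first moment by the product test function. -/
def S_TF : Prop := ∀ (n : ℕ) (A : Fin n → Fin n → ℝ) (c lam : ℝ) (u : Fin n → ℝ), SymZ A →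
  ∑ i, ∑ j, A i j ^ 2 = 2 → ∑ i, u i ^ 2 = 1 → (∀ i, u i ^ 2 ≤ 5 / 21) →
  ∑ i, ∑ j, A i j * (u i * u j) = lam → c ^ 2 ≤ 3 / 50 →
  ex (fun x => |c + qd A x|) ≤ 1 / 2 → 9 / 10 * lam - c ≤ 11 / 10

/-- FI: the final scalar inequality. -/
def S_FI : Prop := ∀ lam c D B S : ℝ, 0 ≤ lam → lam ^ 2 ≤ 2 → 0 ≤ D → 1 + 4 * c ^ 2 < S →
  S ≤ 25 / 81 * (4 - D) → 200 * S ≤ 20 * (4 - D) + 35 * (B - D) + 21 * (4 * D) →
  B ≤ 2 * lam ^ 2 → B ≤ lam ^ 4 + (2 - lam ^ 2) ^ 2 →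
  D ≤ (lam ^ 2 + 1 / 2) * (2 - lam ^ 2) →
  (8 / 5 < lam ^ 2 → c ^ 2 ≤ 3 / 50 → 9 / 10 * lam - |c| ≤ 11 / 10) → False

/-- ST: the normalised step of the induction. -/
def S_ST : Prop := ∀ (n : ℕ) (A : Fin n → Fin n → ℝ) (c : ℝ), SymZ A →
  ∑ i, ∑ j, A i j ^ 2 = 2 →
  (∀ (A' : Fin n → Fin n → ℝ) (c' : ℝ), SymZ A' →
    {k | ∃ l, A' k l ≠ 0} ⊂ {k | ∃ l, A k l ≠ 0} →
    ∑ i, ∑ j, A' i j ^ 2 ≤ 8 * (ex (fun x => |c' + qd A' x|)) ^ 2) →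
  1 / 2 ≤ ex (fun x => |c + qd A x|)

/-- MN: the main inequality. -/
def S_MN : Prop := ∀ (n : ℕ) (A : Fin n → Fin n → ℝ) (c : ℝ), SymZ A →
  ∑ i, ∑ j, A i j ^ 2 ≤ 8 * (ex (fun x => |c + qd A x|)) ^ 2

end H651CB
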