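import Pool.Agent.H651R2.CB.Defs
set_option autoImplicit false

namespace H651CB

lemma kh_sg_mul_self {n : ℕ} (x : Cube n) (i : Fin n) : sg x i * sg x i = 1 := by
  rcases Int.units_eq_one_or (x i) with h | h <;> simp [sg, h]

lemma kh_sg_sq {n : ℕ} (x : Cube n) (i : Fin n) : sg x i ^ 2 = 1 := by
  rw [sq]; exact kh_sg_mul_self x i

/-- flipping the `i`-th coordinate -/
def kh_flp {n : ℕ} (i : Fin n) (x : Cube n) : Cube n := Function.update x i (-(x i))

lemma kh_flp_flp {n : ℕ} (i : Fin n) (x : Cube n) : kh_flp i (kh_flp i x) = x := by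
  funext j
  by_cases h : j = i
  · subst h; simp [kh_flp]
  · simp [kh_flp, h]

def kh_flpEquiv {n : ℕ} (i : Fin n) : Cube n ≃ Cube n :=
  ⟨kh_flp i, kh_flp i, kh_flp_flp i, kh_flp_flp i⟩

lemma kh_sum_flp {n : ℕ} (i : Fin n) (h : Cube n → ℝ) : ∑ x, h (kh_flp i x) = ∑ x, h x :=
  Equiv.sum_comp (kh_flpEquiv i) h

lemma kh_sg_flp {n : ℕ} (i j : Fin n) (x : Cube n) :
    sg (kh_flp i x) j = (if j = i then -1 else 1) * sg x j := by
  by_cases h : j = i
  · subst h; simp [kh_flp, sg]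
  · simp [kh_flp, sg, h]

lemma kh_lin_flp {n : ℕ} (v : Fin n → ℝ) (i : Fin n) (x : Cube n) :
    lin v (kh_flp i x) = lin v x - 2 * (v i * sg x i) := by
  unfold lin
  have : ∀ j, v j * sg (kh_flp i x) j = v j * sg x j - (if j = i then 2 * (v i * sg x i) else 0) := by
    intro j
    rw [kh_sg_flp]
    by_cases h : j = i
    · subst h; simp; ring
    · simp [h]
  simp_rw [this]
  rw [Finset.sum_sub_distrib]
  simp

/-- flips change `s` into `s - 2 y_i` with `∑ y_i = s`, `∑ y_i^2 = σ^2`. -/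
lemma kh_sum_y {n : ℕ} (v : Fin n → ℝ) (x : Cube n) : ∑ i, v i * sg x i = lin v x := rfl

lemma kh_sum_y_sq {n : ℕ} (v : Fin n → ℝ) (x : Cube n) :
    ∑ i, (v i * sg x i) ^ 2 = ∑ i, v i ^ 2 := by
  apply Finset.sum_congr rfl
  intro i _
  rw [mul_pow, kh_sg_sq, mul_one]

lemma kh_abs_lin_kato {n : ℕ} (v : Fin n → ℝ) (x : Cube n) :
    ∑ i, (|lin v x| - |lin v (kh_flp i x)|) ≤ 2 * |lin v x| := by
  rcases le_total 0 (lin v x) with h | h
  · have h1 : ∀ i, |lin v x| - |lin v (kh_flp i x)| ≤ 2 * (v i * sg x i) := by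
      intro i
      rw [kh_lin_flp, abs_of_nonneg h]
      linarith [le_abs_self (lin v x - 2 * (v i * sg x i))]
    calc _ ≤ ∑ i, 2 * (v i * sg x i) := Finset.sum_le_sum (fun i _ => h1 i)
      _ = 2 * |lin v x| := by rw [← Finset.mul_sum, kh_sum_y, abs_of_nonneg h]
  · have h1 : ∀ i, |lin v x| - |lin v (kh_flp i x)| ≤ -2 * (v i * sg x i) := by
      intro i
      rw [kh_lin_flp, abs_of_nonpos h]
      linarith [neg_abs_le (lin v x - 2 * (v i * sg x i))]
    calc _ ≤ ∑ i, -2 * (v i * sg x i) := Finset.sum_le_sum (fun i _ => h1 i)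
      _ = 2 * |lin v x| := by rw [← Finset.mul_sum, kh_sum_y, abs_of_nonpos h]; ring

lemma kh_sq_lin {n : ℕ} (v : Fin n → ℝ) (x : Cube n) :
    ∑ i, (lin v x ^ 2 - lin v (kh_flp i x) ^ 2) = 4 * lin v x ^ 2 - 4 * ∑ i, v i ^ 2 := by
  have h1 : ∀ i, lin v x ^ 2 - lin v (kh_flp i x) ^ 2
      = 4 * lin v x * (v i * sg x i) - 4 * (v i * sg x i) ^ 2 := by
    intro i
    rw [kh_lin_flp]; ring
  simp_rw [h1]
  rw [Finset.sum_sub_distrib, ← Finset.mul_sum, ← Finset.mul_sum, kh_sum_y, kh_sum_y_sq]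
  ring

/-- Walsh functions -/
def kh_wal {n : ℕ} (S : Finset (Fin n)) (x : Cube n) : ℝ := ∏ i ∈ S, sg x i

lemma kh_prod_one_add_sg {n : ℕ} (x y : Cube n) :
    ∏ i, (1 + sg x i * sg y i) = if x = y then (2 : ℝ) ^ n else 0 := by
  split_ifs with h
  · subst h
    have : ∀ i, 1 + sg x i * sg x i = 2 := by
      intro i; rw [kh_sg_mul_self]; norm_num
    simp [this]
  · obtain ⟨i, hi⟩ := Function.ne_iff.1 h
    apply Finset.prod_eq_zero (Finset.mem_univ i)
    rcases Int.units_eq_one_or (x i) with h1 | h1 <;> rcases Int.units_eq_one_or (y i) with h2 | h2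
    · exact absurd (h1.trans h2.symm) hi
    · simp [sg, h1, h2]
    · simp [sg, h1, h2]
    · exact absurd (h1.trans h2.symm) hi

lemma kh_sum_wal {n : ℕ} (x y : Cube n) :
    ∑ S : Finset (Fin n), kh_wal S x * kh_wal S y = if x = y then (2 : ℝ) ^ n else 0 := by
  rw [← kh_prod_one_add_sg, Finset.prod_one_add]
  rw [Finset.powerset_univ]
  apply Finset.sum_congr rfl
  intro S _
  rw [kh_wal, kh_wal, ← Finset.prod_mul_distrib]

/-- Walsh coefficient (unnormalised) -/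
def kh_coef {n : ℕ} (f : Cube n → ℝ) (S : Finset (Fin n)) : ℝ := ∑ x, f x * kh_wal S x

lemma kh_parseval {n : ℕ} (f g : Cube n → ℝ) :
    ∑ S, kh_coef f S * kh_coef g S = 2 ^ n * ∑ x, f x * g x := by
  unfold kh_coef
  simp_rw [Finset.sum_mul_sum]
  rw [Finset.sum_comm]
  have h1 : ∀ x, ∑ S, ∑ y, f x * kh_wal S x * (g y * kh_wal S y) = 2 ^ n * (f x * g x) := by
    intro x
    rw [Finset.sum_comm]
    have h2 : ∀ y, ∑ S, f x * kh_wal S x * (g y * kh_wal S y)
        = f x * g y * (if x = y then (2 : ℝ) ^ n else 0) := by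
      intro y
      rw [← kh_sum_wal, Finset.mul_sum]
      exact Finset.sum_congr rfl (fun S _ => by ring)
    simp_rw [h2]
    simp; ring
  simp_rw [h1]
  rw [Finset.mul_sum]

lemma kh_wal_flp {n : ℕ} (i : Fin n) (S : Finset (Fin n)) (x : Cube n) :
    kh_wal S (kh_flp i x) = (if i ∈ S then -1 else 1) * kh_wal S x := by
  unfold kh_wal
  simp_rw [kh_sg_flp]
  rw [Finset.prod_mul_distrib]
  congr 1
  simp [Finset.prod_ite_eq']

lemma kh_coef_flp {n : ℕ} (f : Cube n → ℝ) (i : Fin n) (S : Finset (Fin n)) :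
    kh_coef (fun x => f (kh_flp i x)) S = (if i ∈ S then -1 else 1) * kh_coef f S := by
  unfold kh_coef
  rw [← kh_sum_flp i, Finset.mul_sum]
  apply Finset.sum_congr rfl
  intro x _
  simp only [kh_flp_flp, kh_wal_flp]; ring

lemma kh_energy {n : ℕ} (f : Cube n → ℝ) :
    2 ^ n * ∑ x, f x * ∑ i, (f x - f (kh_flp i x)) = ∑ S, 2 * (S.card : ℝ) * kh_coef f S ^ 2 := by
  have h1 : ∀ i, 2 ^ n * ∑ x, f x * (f x - f (kh_flp i x))
      = ∑ S, (if i ∈ S then 2 else 0) * kh_coef f S ^ 2 := by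
    intro i
    have h2 : ∑ x, f x * (f x - f (kh_flp i x)) = ∑ x, f x * f x - ∑ x, f x * f (kh_flp i x) := by
      rw [← Finset.sum_sub_distrib]
      exact Finset.sum_congr rfl (fun x _ => by ring)
    rw [h2, mul_sub, ← kh_parseval f f, ← kh_parseval f (fun x => f (kh_flp i x)),
      ← Finset.sum_sub_distrib]
    apply Finset.sum_congr rfl
    intro S _
    rw [kh_coef_flp]
    split_ifs <;> ring
  have h3 : ∑ x, f x * ∑ i, (f x - f (kh_flp i x)) = ∑ i, ∑ x, f x * (f x - f (kh_flp i x)) := by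
    simp_rw [Finset.mul_sum]
    exact Finset.sum_comm
  rw [h3, Finset.mul_sum]
  simp_rw [h1]
  rw [Finset.sum_comm]
  apply Finset.sum_congr rfl
  intro S _
  rw [← Finset.sum_mul]
  congr 1
  simp [Finset.sum_ite_mem, mul_comm]

lemma kh_sg_neg {n : ℕ} (x : Cube n) (i : Fin n) : sg (-x) i = - sg x i := by
  simp [sg]

lemma kh_wal_neg {n : ℕ} (S : Finset (Fin n)) (x : Cube n) :
    kh_wal S (-x) = (-1) ^ S.card * kh_wal S x := by
  unfold kh_wal
  simp_rw [kh_sg_neg]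
  rw [Finset.prod_neg]

lemma kh_coef_odd {n : ℕ} (f : Cube n → ℝ) (hf : ∀ x, f (-x) = f x) (S : Finset (Fin n))
    (hS : Odd S.card) : kh_coef f S = 0 := by
  have h1 : kh_coef f S = - kh_coef f S := by
    conv_lhs => rw [kh_coef, ← Equiv.sum_comp (Equiv.neg (Cube n))]
    rw [kh_coef, ← Finset.sum_neg_distrib]
    apply Finset.sum_congr rfl
    intro x _
    rw [Equiv.neg_apply, hf, kh_wal_neg, hS.neg_one_pow]; ring
  linarith

lemma kh_sum_lin_sq {n : ℕ} (v : Fin n → ℝ) :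
    ∑ x, lin v x ^ 2 = 2 ^ n * ∑ i, v i ^ 2 := by
  have h1 : ∑ x, ∑ i, (lin v x ^ 2 - lin v (kh_flp i x) ^ 2) = 0 := by
    rw [Finset.sum_comm]
    apply Finset.sum_eq_zero
    intro i _
    rw [Finset.sum_sub_distrib, kh_sum_flp i (fun x => lin v x ^ 2), sub_self]
  simp_rw [kh_sq_lin] at h1
  rw [Finset.sum_sub_distrib, ← Finset.mul_sum, Finset.sum_const, Finset.card_univ,
    nsmul_eq_mul] at h1
  have hc : ((Fintype.card (Cube n) : ℕ) : ℝ) = 2 ^ n := by
    simp [Cube]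
  rw [hc] at h1
  linarith

theorem t_KH : S_KH := by
  intro n v
  have hN : (0 : ℝ) < 2 ^ n := by positivity
  set ρ : Cube n → ℝ := fun x => |lin v x| with hρ
  have heven : ∀ x, ρ (-x) = ρ x := by
    intro x
    have : lin v (-x) = - lin v x := by
      unfold lin
      rw [← Finset.sum_neg_distrib]
      apply Finset.sum_congr rfl
      intro i _
      rw [kh_sg_neg]
      ring
    simp only [hρ]
    rw [this, abs_neg]
  have h1 : ∑ x, ρ x * ∑ i, (ρ x - ρ (kh_flp i x)) ≤ 2 * ∑ x, ρ x ^ 2 := by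
    rw [Finset.mul_sum]
    apply Finset.sum_le_sum
    intro x _
    have := mul_le_mul_of_nonneg_left (kh_abs_lin_kato v x) (abs_nonneg (lin v x))
    simp only [hρ]
    nlinarith
  have h2 : 2 ^ n * ∑ x, ρ x * ∑ i, (ρ x - ρ (kh_flp i x)) ≤ 2 ^ n * (2 * ∑ x, ρ x ^ 2) :=
    mul_le_mul_of_nonneg_left h1 hN.le
  rw [kh_energy] at h2
  have hp : 2 ^ n * ∑ x, ρ x ^ 2 = ∑ S, kh_coef ρ S ^ 2 := by
    have := kh_parseval ρ ρ
    simp_rw [← sq] at this
    exact this.symm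
  have hkey : ∀ S : Finset (Fin n), 4 * kh_coef ρ S ^ 2 ≤
      2 * (S.card : ℝ) * kh_coef ρ S ^ 2 + 4 * (if S = ∅ then kh_coef ρ S ^ 2 else 0) := by
    intro S
    have hnn : 0 ≤ kh_coef ρ S ^ 2 := sq_nonneg _
    rcases Nat.even_or_odd S.card with hS | hS
    · by_cases h0 : S = ∅
      · rw [if_pos h0, h0]
        simp
      · rw [if_neg h0]
        have hc : 2 ≤ S.card := by
          have : S.card ≠ 0 := fun h => h0 (Finset.card_eq_zero.1 h)
          rcases hS with ⟨k, hk⟩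
          omega
        have hc' : (2 : ℝ) ≤ S.card := by exact_mod_cast hc
        nlinarith [mul_le_mul_of_nonneg_right hc' hnn]
    · have : kh_coef ρ S = 0 := kh_coef_odd ρ heven S hS
      simp [this]
  have hsum := Finset.sum_le_sum (s := Finset.univ) (fun S _ => hkey S)
  rw [Finset.sum_add_distrib, ← Finset.mul_sum, ← Finset.mul_sum, ← hp] at hsum
  have h0 : ∑ S : Finset (Fin n), (if S = ∅ then kh_coef ρ S ^ 2 else 0) = (∑ x, ρ x) ^ 2 := by
    rw [Finset.sum_ite_eq']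
    simp [kh_coef, kh_wal]
  rw [h0] at hsum
  have h3 : 2 ^ n * ∑ x, ρ x ^ 2 ≤ 2 * (∑ x, ρ x) ^ 2 := by linarith
  have h4 : ∑ x, ρ x ^ 2 = 2 ^ n * ∑ i, v i ^ 2 := by
    rw [← kh_sum_lin_sq]
    apply Finset.sum_congr rfl
    intro x _
    simp only [hρ]
    rw [sq_abs]
  rw [h4] at h3
  have h5 : 2 * (ex (fun x => |lin v x|)) ^ 2 = ((2 : ℝ) ^ n)⁻¹ ^ 2 * (2 * (∑ x, ρ x) ^ 2) := by
    unfold ex
    simp only [hρ]
    ring
  rw [h5]
  calc ∑ i, v i ^ 2 = ((2 : ℝ) ^ n)⁻¹ ^ 2 * (2 ^ n * (2 ^ n * ∑ i, v i ^ 2)) := by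
        field_simp
    _ ≤ _ := mul_le_mul_of_nonneg_left h3 (by positivity)

end H651CB
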