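import Pool.Agent.H651R2.CB.Defs
set_option autoImplicit false

/-!
# The L^2-L^1 constant of homogeneous quadratic forms on the discrete cube: final theorem
-/

namespace H651CB

/-- `f` is a 2-homogeneous polynomial on the cube. -/
def IsTwoHom {n : ℕ} (f : Cube n → ℝ) : Prop :=
  ∃ a : Fin n → Fin n → ℝ, ∀ x, f x = ∑ i, ∑ j, if i < j then
    a i j * ((x i : ℤ) : ℝ) * ((x j : ℤ) : ℝ) else 0

/-- The `L^p` norm on the cube for the uniform probability measure. -/
noncomputable def lpNorm {n : ℕ} (p : ℝ) (f : Cube n → ℝ) : ℝ :=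
  ((2 : ℝ) ^ (-(n : ℝ)) * ∑ x, |f x| ^ p) ^ (1 / p)

lemma res_sg_mul_self {n : ℕ} (x : Cube n) (i : Fin n) : sg x i * sg x i = 1 := by
  rcases Int.units_eq_one_or (x i) with h | h <;> simp [sg, h]

/-- flipping the `i`-th coordinate -/
def res_flp {n : ℕ} (i : Fin n) (x : Cube n) : Cube n := Function.update x i (-(x i))

lemma res_flp_flp {n : ℕ} (i : Fin n) (x : Cube n) : res_flp i (res_flp i x) = x := by
  funext j
  by_cases h : j = i
  · subst h; simp [res_flp]
  · simp [res_flp, h]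

def res_flpEquiv {n : ℕ} (i : Fin n) : Cube n ≃ Cube n :=
  ⟨res_flp i, res_flp i, res_flp_flp i, res_flp_flp i⟩

lemma res_sum_flp {n : ℕ} (i : Fin n) (h : Cube n → ℝ) : ∑ x, h (res_flp i x) = ∑ x, h x :=
  Equiv.sum_comp (res_flpEquiv i) h

lemma res_sg_flp_self {n : ℕ} (i : Fin n) (x : Cube n) :
    sg (res_flp i x) i = - sg x i := by
  simp [res_flp, sg]

lemma res_sg_flp_ne {n : ℕ} {i j : Fin n} (h : j ≠ i) (x : Cube n) :
    sg (res_flp i x) j = sg x j := by
  simp [res_flp, sg, h]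

/-- a function which changes its sign under a flip has sum zero -/
lemma res_sum_zero {n : ℕ} (i : Fin n) (h : Cube n → ℝ) (hh : ∀ x, h (res_flp i x) = - h x) :
    ∑ x, h x = 0 := by
  have h1 := res_sum_flp i h
  simp_rw [hh, Finset.sum_neg_distrib] at h1
  linarith

lemma res_two {n : ℕ} {i j : Fin n} (hij : i ≠ j) : ∑ x : Cube n, sg x i * sg x j = 0 := by
  refine res_sum_zero i _ fun x => ?_
  rw [res_sg_flp_self, res_sg_flp_ne hij.symm]
  ring

lemma res_card {n : ℕ} : ∑ _x : Cube n, (1 : ℝ) = 2 ^ n := by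
  simp [Finset.card_univ]

lemma res_four {n : ℕ} {i j k l : Fin n} (hij : i ≠ j) (hkl : k ≠ l) :
    ∑ x : Cube n, sg x k * sg x l * (sg x i * sg x j) =
      (2 : ℝ) ^ n * ((if k = i ∧ l = j then 1 else 0) + (if k = j ∧ l = i then 1 else 0)) := by
  by_cases hki : k = i
  · subst hki
    have h1 : ∀ x : Cube n, sg x k * sg x l * (sg x k * sg x j) = sg x l * sg x j := by
      intro x
      have := res_sg_mul_self x k
      linear_combination (sg x l * sg x j) * this
    simp_rw [h1]
    by_cases hlj : l = j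
    · subst hlj
      simp_rw [res_sg_mul_self]
      rw [res_card]
      simp [hij]
    · rw [res_two hlj]
      simp [hlj, hij]
  · by_cases hkj : k = j
    · subst hkj
      have h1 : ∀ x : Cube n, sg x k * sg x l * (sg x i * sg x k) = sg x l * sg x i := by
        intro x
        have := res_sg_mul_self x k
        linear_combination (sg x l * sg x i) * this
      simp_rw [h1]
      by_cases hli : l = i
      · subst hli
        simp_rw [res_sg_mul_self]
        rw [res_card]
        simp [hki]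
      · rw [res_two hli]
        simp [hli, hki]
    · have h0 : ∑ x : Cube n, sg x k * sg x l * (sg x i * sg x j) = 0 := by
        refine res_sum_zero k _ fun x => ?_
        rw [res_sg_flp_self, res_sg_flp_ne hkl.symm, res_sg_flp_ne (Ne.symm hki),
          res_sg_flp_ne (Ne.symm hkj)]
        ring
      rw [h0]
      simp [hki, hkj]

/-- coefficients of a quadratic form -/
lemma res_coef {n : ℕ} (A : Fin n → Fin n → ℝ) (hA : SymZ A) {i j : Fin n} (hij : i ≠ j) :
    ∑ x : Cube n, qd A x * (sg x i * sg x j) = 2 ^ n * A i j := by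
  have h1 : ∀ x : Cube n, qd A x * (sg x i * sg x j) =
      ∑ k, ∑ l, 1 / 2 * A k l * (sg x k * sg x l * (sg x i * sg x j)) := by
    intro x
    unfold qd
    rw [mul_assoc, Finset.sum_mul, Finset.mul_sum]
    refine Finset.sum_congr rfl fun k _ => ?_
    rw [Finset.sum_mul, Finset.mul_sum]
    refine Finset.sum_congr rfl fun l _ => ?_
    ring
  simp_rw [h1]
  rw [Finset.sum_comm]
  have h2 : ∀ k : Fin n, ∑ x : Cube n, ∑ l, 1 / 2 * A k l *
      (sg x k * sg x l * (sg x i * sg x j)) =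
      ∑ l, (2 : ℝ) ^ n * (1 / 2 * A k l * ((if k = i ∧ l = j then 1 else 0) +
        (if k = j ∧ l = i then 1 else 0))) := by
    intro k
    rw [Finset.sum_comm]
    refine Finset.sum_congr rfl fun l _ => ?_
    rw [← Finset.mul_sum]
    by_cases hkl : k = l
    · subst hkl
      rw [hA.2 k]
      ring
    · rw [res_four hij hkl]
      ring
  simp_rw [h2]
  simp_rw [← Finset.mul_sum]
  congr 1
  have h3 : ∀ k l : Fin n, 1 / 2 * A k l * ((if k = i ∧ l = j then 1 else 0) +
        (if k = j ∧ l = i then (1:ℝ) else 0)) =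
      (if k = i then (if l = j then 1 / 2 * A k l else 0) else 0) +
      (if k = j then (if l = i then 1 / 2 * A k l else 0) else 0) := by
    intro k l
    simp only [ite_and, mul_add, mul_ite, mul_one, mul_zero]
  simp_rw [h3, Finset.sum_add_distrib]
  simp only [Finset.sum_ite_irrel, Finset.sum_const_zero, Finset.sum_ite_eq', Finset.mem_univ,
    if_true]
  rw [hA.1 j i]
  ring

/-- second moment of a quadratic form -/
lemma res_second {n : ℕ} (A : Fin n → Fin n → ℝ) (hA : SymZ A) :
    ∑ x : Cube n, qd A x ^ 2 = 2 ^ n * (1 / 2 * ∑ i, ∑ j, A i j ^ 2) := by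
  have h1 : ∀ x : Cube n, qd A x ^ 2 = ∑ i, ∑ j, 1 / 2 * A i j * (qd A x * (sg x i * sg x j)) := by
    intro x
    have h2 : qd A x ^ 2 = qd A x * (1 / 2 * ∑ i, ∑ j, A i j * (sg x i * sg x j)) := by
      rw [sq]
      rfl
    rw [h2, Finset.mul_sum, Finset.mul_sum]
    refine Finset.sum_congr rfl fun k _ => ?_
    rw [Finset.mul_sum, Finset.mul_sum]
    refine Finset.sum_congr rfl fun l _ => ?_
    ring
  simp_rw [h1]
  rw [Finset.sum_comm, Finset.mul_sum, Finset.mul_sum]
  refine Finset.sum_congr rfl fun i _ => ?_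
  rw [Finset.sum_comm, Finset.mul_sum, Finset.mul_sum]
  refine Finset.sum_congr rfl fun j _ => ?_
  rw [← Finset.mul_sum]
  by_cases hij : i = j
  · subst hij
    rw [hA.2 i]
    ring
  · rw [res_coef A hA hij]
    ring

lemma res_pow {n : ℕ} : (2 : ℝ) ^ (-(n : ℝ)) = ((2 : ℝ) ^ n)⁻¹ := by
  rw [Real.rpow_neg (by norm_num), Real.rpow_natCast]

lemma res_lp1 {n : ℕ} (f : Cube n → ℝ) : lpNorm 1 f = ((2 : ℝ) ^ n)⁻¹ * ∑ x, |f x| := by
  unfold lpNorm
  rw [res_pow]
  simp only [Real.rpow_one, div_one]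

lemma res_lp2 {n : ℕ} (f : Cube n → ℝ) :
    lpNorm 2 f = Real.sqrt (((2 : ℝ) ^ n)⁻¹ * ∑ x, f x ^ 2) := by
  unfold lpNorm
  rw [res_pow, ← Real.sqrt_eq_rpow]
  simp only [Real.rpow_two, sq_abs]

lemma res_upper (hMN : S_MN) {n : ℕ} {f : Cube n → ℝ} (hf : IsTwoHom f) :
    lpNorm 2 f ≤ 2 * lpNorm 1 f := by
  obtain ⟨a, ha⟩ := hf
  set A : Fin n → Fin n → ℝ := fun i j => if i < j then a i j else if j < i then a j i else 0
    with hAdef
  have hA : SymZ A := by
    constructor
    · intro i j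
      simp only [hAdef]
      rcases lt_trichotomy i j with h | h | h
      · rw [if_pos h, if_neg h.asymm, if_pos h]
      · subst h; rfl
      · rw [if_neg h.asymm, if_pos h, if_pos h]
    · intro i
      simp [hAdef]
  have hfq : ∀ x, f x = qd A x := by
    intro x
    have e1 : ∀ i j, A i j * (sg x i * sg x j) =
        (if i < j then a i j * ((x i : ℤ) : ℝ) * ((x j : ℤ) : ℝ) else 0) +
        (if j < i then a j i * ((x j : ℤ) : ℝ) * ((x i : ℤ) : ℝ) else 0) := by
      intro i j
      simp only [hAdef, sg]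
      rcases lt_trichotomy i j with h | h | h
      · rw [if_pos h, if_pos h, if_neg h.asymm]; ring
      · subst h; simp
      · rw [if_neg h.asymm, if_pos h, if_neg h.asymm, if_pos h]; ring
    unfold qd
    simp_rw [e1, Finset.sum_add_distrib]
    rw [Finset.sum_comm (f := fun i j => if j < i then a j i * ((x j : ℤ) : ℝ) * ((x i : ℤ) : ℝ)
      else 0), ha x]
    ring
  have h1 := hMN n A 0 hA
  have h2 := res_second A hA
  have hN : (0 : ℝ) < 2 ^ n := by positivity
  have h3 : ((2 : ℝ) ^ n)⁻¹ * ∑ x, f x ^ 2 = 1 / 2 * ∑ i, ∑ j, A i j ^ 2 := by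
    simp_rw [hfq]
    rw [h2, inv_mul_cancel_left₀ hN.ne']
  have h4 : ex (fun x => |0 + qd A x|) = lpNorm 1 f := by
    rw [res_lp1]
    unfold ex
    simp_rw [hfq, zero_add]
  rw [h4] at h1
  have h5 : 0 ≤ lpNorm 1 f := by
    rw [res_lp1]; positivity
  rw [res_lp2, h3]
  rw [Real.sqrt_le_left (by positivity)]
  nlinarith

/-- the extremal function -/
def res_g (x : Cube 4) : ℤ := ((x 0 : ℤ) + x 1) * ((x 2 : ℤ) + x 3)

lemma res_g1 : ∑ x : Cube 4, |res_g x| = 16 := by decide +kernel

lemma res_g2 : ∑ x : Cube 4, res_g x ^ 2 = 64 := by decide +kernel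

/-- **The constant is `2`.** -/
theorem t_RES (hMN : S_MN) : IsGreatest {t : ℝ | ∃ (n : ℕ) (f : Cube n → ℝ), IsTwoHom f ∧ f ≠ 0 ∧
    t = lpNorm 2 f / lpNorm 1 f} 2 := by
  constructor
  · refine ⟨4, fun x => (res_g x : ℝ), ?_, ?_, ?_⟩
    · refine ⟨fun i j => if i < 2 ∧ 2 ≤ j then 1 else 0, fun x => ?_⟩
      simp only [Fin.sum_univ_four, res_g]
      simp
      ring
    · intro h
      have h1 := congrFun h (fun _ => 1)
      simp [res_g] at h1
    · rw [res_lp1, res_lp2]
      have h1 : ∑ x : Cube 4, |(res_g x : ℝ)| = 16 := by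
        have := res_g1
        exact_mod_cast this
      have h2 : ∑ x : Cube 4, (res_g x : ℝ) ^ 2 = 64 := by
        have := res_g2
        exact_mod_cast this
      rw [h1, h2]
      have h3 : ((2:ℝ) ^ 4)⁻¹ * 64 = 2 ^ 2 := by norm_num
      rw [h3, Real.sqrt_sq (by norm_num)]
      norm_num
  · rintro t ⟨n, f, hf, -, rfl⟩
    have h1 := res_upper hMN hf
    have h5 : 0 ≤ lpNorm 1 f := by
      rw [res_lp1]; positivity
    exact div_le_of_le_mul₀ h5 (by norm_num) h1

end H651CB
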