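import Pool.Agent.H651R2.CB.Defs
set_option autoImplicit false

namespace H651CB

lemma st_sg_flip {n : ℕ} (i j : Fin n) (x : Cube n) :
    sg (Function.update x i (-(x i))) j = (if j = i then -1 else 1) * sg x j := by
  by_cases h : j = i
  · subst h; simp [sg]
  · simp [sg, h]

lemma st_ex_zero {n : ℕ} (A : Fin n → Fin n → ℝ) (c : ℝ) (hA : SymZ A) (i j : Fin n)
    (hij : i ≠ j) (hi : ∀ l, A i l = 0) :
    ex (fun x => |c + qd A x| * (sg x i * sg x j)) = 0 := by
  have hq : ∀ x : Cube n, qd A (Function.update x i (-(x i))) = qd A x := by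
    intro x
    unfold qd
    congr 1
    refine Finset.sum_congr rfl (fun k _ => Finset.sum_congr rfl (fun l _ => ?_))
    rw [st_sg_flip, st_sg_flip]
    by_cases hk : k = i
    · subst hk; simp [hi]
    · by_cases hl : l = i
      · subst hl; simp [hA.1 k l, hi]
      · simp [hk, hl]
  let e : Cube n ≃ Cube n := ⟨fun x => Function.update x i (-(x i)),
    fun x => Function.update x i (-(x i)),
    fun x => by
      funext k
      by_cases h : k = i
      · subst h; simp
      · simp [h],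
    fun x => by
      funext k
      by_cases h : k = i
      · subst h; simp
      · simp [h]⟩
  have h1 : ∑ x : Cube n, |c + qd A x| * (sg x i * sg x j)
      = - ∑ x : Cube n, |c + qd A x| * (sg x i * sg x j) := by
    conv_lhs => rw [← Equiv.sum_comp e]
    rw [← Finset.sum_neg_distrib]
    refine Finset.sum_congr rfl (fun x _ => ?_)
    change |c + qd A (Function.update x i (-(x i)))| * (sg (Function.update x i (-(x i))) i
      * sg (Function.update x i (-(x i))) j) = _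
    rw [hq, st_sg_flip, st_sg_flip]
    simp [hij.symm]
  unfold ex
  have : ∑ x : Cube n, |c + qd A x| * (sg x i * sg x j) = 0 := by linarith
  rw [this, mul_zero]

lemma st_ex_nonneg {n : ℕ} (F : Cube n → ℝ) : 0 ≤ ex (fun x => |F x|) := by
  unfold ex
  positivity

lemma st_cs {n : ℕ} (A : Fin n → Fin n → ℝ) (hA : SymZ A) (i j : Fin n) (hij : i ≠ j) :
    bb A i j ^ 2 ≤ (infl A i - A i j ^ 2) * (infl A j - A i j ^ 2) := by
  have h1 : infl A i - A i j ^ 2 = ∑ k ∈ Finset.univ.erase j, A i k ^ 2 := by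
    unfold infl
    rw [← Finset.sum_erase_add _ _ (Finset.mem_univ j)]
    ring
  have h2 : infl A j - A i j ^ 2 = ∑ k ∈ Finset.univ.erase j, (if k = i then 0 else A j k) ^ 2 := by
    unfold infl
    rw [← Finset.sum_erase_add _ _ (Finset.mem_univ j), hA.2 j]
    have hi : i ∈ Finset.univ.erase j := by simp [hij]
    rw [← Finset.sum_erase_add _ _ hi, ← Finset.sum_erase_add _ (fun k => (if k = i then 0 else A j k) ^ 2) hi]
    rw [hA.1 j i]
    have : ∑ k ∈ (Finset.univ.erase j).erase i, A j k ^ 2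
        = ∑ k ∈ (Finset.univ.erase j).erase i, (if k = i then 0 else A j k) ^ 2 := by
      refine Finset.sum_congr rfl (fun k hk => ?_)
      rw [if_neg (Finset.ne_of_mem_erase hk)]
    rw [this]
    simp
  have h3 : bb A i j = ∑ k ∈ Finset.univ.erase j, A i k * (if k = i then 0 else A j k) := by
    unfold bb
    rw [← Finset.sum_erase_add _ _ (Finset.mem_univ j), hA.2 j, mul_zero, add_zero]
    refine Finset.sum_congr rfl (fun k _ => ?_)
    by_cases hk : k = i
    · subst hk; simp [hA.2]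
    · rw [if_neg hk, hA.1 k j]
  rw [h1, h2, h3]
  exact Finset.sum_mul_sq_le_sq_mul_sq _ _ _

/-- the scalar part of the pair estimate -/
lemma st_pair (hPR : S_PR) (x w t B r g E1 E2 : ℝ) (hx : t ^ 2 ≤ x) (hw : t ^ 2 ≤ w)
    (hx2 : x ≤ 1 / 2) (hw2 : w ≤ 1 / 2) (hB : B ^ 2 ≤ (x - t ^ 2) * (w - t ^ 2))
    (hr : r < 1 / 2) (hE1 : E1 = r + g) (hE2 : E2 = r - g) (h1 : 0 ≤ E1) (h2 : 0 ≤ E2)
    (a1 : 0 ≤ 2 - 2 * t ^ 2 + 4 * B) (a2 : 0 ≤ 2 - 2 * t ^ 2 - 4 * B)
    (b1 : 2 - 2 * t ^ 2 + 4 * B ≤ 8 * E1 ^ 2) (b2 : 2 - 2 * t ^ 2 - 4 * B ≤ 8 * E2 ^ 2)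
    (c1 : x + w - 2 * t ^ 2 + 2 * B ≤ 2 * E1 ^ 2) (c2 : x + w - 2 * t ^ 2 - 2 * B ≤ 2 * E2 ^ 2) :
    81 * g ^ 2 ≤ 25 * (x * w) ∧
    200 * g ^ 2 ≤ 20 * (x * w) + 35 * B ^ 2 + 21 * (x * w * (x + w) + t ^ 2 * (x ^ 2 + w ^ 2)) := by
  have hb1 : 0 ≤ 1 - t ^ 2 - 2 * |B| := by
    rcases abs_cases B with ⟨h, _⟩ | ⟨h, _⟩ <;> rw [h] <;> linarith
  set v := Real.sqrt (1 - t ^ 2 - 2 * |B|) with hv
  have hv0 : 0 ≤ v := Real.sqrt_nonneg _
  have hv2 : v ^ 2 = 1 - t ^ 2 - 2 * |B| := Real.sq_sqrt hb1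
  have hv1 : v ≤ 1 := by
    have : v ^ 2 ≤ 1 := by rw [hv2]; nlinarith [abs_nonneg B, sq_nonneg t]
    nlinarith
  have sqle : ∀ a b : ℝ, 0 ≤ b → a ^ 2 ≤ b ^ 2 → a ≤ b := fun a b hb h =>
    (le_abs_self a).trans (abs_le_of_sq_le_sq h hb)
  have e1 : v ≤ 2 * E1 := by
    have : v ^ 2 ≤ (2 * E1) ^ 2 := by
      rw [hv2]; linarith [neg_abs_le B]
    exact sqle _ _ (by linarith) this
  have e2 : v ≤ 2 * E2 := by
    have : v ^ 2 ≤ (2 * E2) ^ 2 := by
      rw [hv2]; linarith [le_abs_self B]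
    exact sqle _ _ (by linarith) this
  obtain ⟨p, hp⟩ : ∃ p, p = (1 - v) / 2 := ⟨_, rfl⟩
  have hg : g ^ 2 ≤ p ^ 2 := by
    have h3 : -p ≤ g := by rw [hp]; linarith
    have h4 : g ≤ p := by rw [hp]; linarith
    exact sq_le_sq' h3 h4
  have hz : 4 * p * (1 - p) = t ^ 2 + 2 * |B| := by
    have : 4 * p * (1 - p) = 1 - v ^ 2 := by rw [hp]; ring
    rw [this, hv2]; ring
  have hp0 : 0 ≤ p := by rw [hp]; linarith
  have hF5 : x + w < 1 / 2 - 2 * p + 6 * p ^ 2 + 3 * t ^ 2 := by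
    have k1 : 2 * (1 / 2 + p) ^ 2 = 1 / 2 + 2 * p + 2 * p ^ 2 := by ring
    have k2 : 4 * p * (1 - p) = 4 * p - 4 * p ^ 2 := by ring
    rcases abs_cases B with ⟨h, _⟩ | ⟨h, _⟩
    · have h5 : E1 < 1 / 2 + p := by rw [hp]; linarith
      have h6 : E1 ^ 2 < (1 / 2 + p) ^ 2 := pow_lt_pow_left₀ h5 h1 two_ne_zero
      rw [h] at hz
      linarith
    · have h5 : E2 < 1 / 2 + p := by rw [hp]; linarith
      have h6 : E2 ^ 2 < (1 / 2 + p) ^ 2 := pow_lt_pow_left₀ h5 h2 two_ne_zero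
      rw [h] at hz
      linarith
  have := hPR x w (t ^ 2) |B| p (sq_nonneg _) hx hw hx2 hw2 (abs_nonneg _) (by rw [sq_abs]; exact hB)
    (by rw [hp]; linarith) (by rw [hp]; linarith) hz hF5
  rw [sq_abs] at this
  constructor
  · linarith [this.1]
  · linarith [this.2]

theorem t_ST (hEN : S_EN) (hRS : S_RS) (hLB : S_LB) (hPR : S_PR) (hSP : S_SP) (hDV : S_DV)
    (hSM : S_SM) (hTF : S_TF) (hFI : S_FI) : S_ST := by
  intro n A c hA hA2 IH
  by_contra hr
  push Not at hr
  obtain ⟨hc, hI⟩ := hLB n A c hA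
  have hen := hEN n A c hA
  set r := ex (fun x => |c + qd A x|) with hrdef
  have hr0 : 0 ≤ r := st_ex_nonneg _
  have hI2 : ∀ i, infl A i ≤ 1 / 2 := by
    intro i
    have := hI i
    nlinarith
  have hpair : ∀ i j, i ≠ j →
      81 * (ex (fun x => |c + qd A x| * (sg x i * sg x j))) ^ 2 ≤ 25 * (infl A i * infl A j) ∧
      200 * (ex (fun x => |c + qd A x| * (sg x i * sg x j))) ^ 2
        ≤ 20 * (infl A i * infl A j) + 35 * bb A i j ^ 2
          + 21 * (infl A i * infl A j * (infl A i + infl A j)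
            + A i j ^ 2 * (infl A i ^ 2 + infl A j ^ 2)) := by
    intro i j hij
    have hin : ∀ k, 0 ≤ infl A k := fun k => Finset.sum_nonneg (fun _ _ => sq_nonneg _)
    have triv : ex (fun x => |c + qd A x| * (sg x i * sg x j)) = 0 →
        81 * (ex (fun x => |c + qd A x| * (sg x i * sg x j))) ^ 2 ≤ 25 * (infl A i * infl A j) ∧
        200 * (ex (fun x => |c + qd A x| * (sg x i * sg x j))) ^ 2
        ≤ 20 * (infl A i * infl A j) + 35 * bb A i j ^ 2
          + 21 * (infl A i * infl A j * (infl A i + infl A j)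
            + A i j ^ 2 * (infl A i ^ 2 + infl A j ^ 2)) := by
      intro h0
      rw [h0]
      have h1 := hin i
      have h2 := hin j
      constructor
      · have : 0 ≤ 25 * (infl A i * infl A j) := by positivity
        linarith
      · have : 0 ≤ 20 * (infl A i * infl A j) + 35 * bb A i j ^ 2
          + 21 * (infl A i * infl A j * (infl A i + infl A j)
            + A i j ^ 2 * (infl A i ^ 2 + infl A j ^ 2)) := by positivity
        linarith
    by_cases hi : ∀ l, A i l = 0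
    · exact triv (st_ex_zero A c hA i j hij hi)
    by_cases hj : ∀ l, A j l = 0
    · apply triv
      have := st_ex_zero A c hA j i hij.symm hj
      rw [← this]
      congr 1
      funext x
      ring
    push Not at hi hj
    obtain ⟨A1, hs1, hj1, hk1, hq1, hf1, he1⟩ := hRS n A hA i j hij 1 (Or.inl rfl)
    obtain ⟨A2, hs2, hj2, hk2, hq2, hf2, he2⟩ := hRS n A hA i j hij (-1) (Or.inr rfl)
    have hsub : ∀ A' : Fin n → Fin n → ℝ, (∀ k, A' j k = 0) →
        (∀ k, k ≠ i → (∀ l, A k l = 0) → ∀ l, A' k l = 0) →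
        {k | ∃ l, A' k l ≠ 0} ⊂ {k | ∃ l, A k l ≠ 0} := by
      intro A' h1 h2
      refine ⟨?_, ?_⟩
      · intro k hk
        simp only [Set.mem_setOf_eq] at hk ⊢
        by_cases hki : k = i
        · subst hki; exact hi
        · by_contra hcon
          push Not at hcon
          obtain ⟨l, hl⟩ := hk
          exact hl (h2 k hki hcon l)
      · intro hcon
        have : j ∈ {k | ∃ l, A k l ≠ 0} := hj
        obtain ⟨l, hl⟩ := hcon this
        exact hl (h1 l)
    have i1 := IH A1 (c + 1 * A i j) hs1 (hsub A1 hj1 hk1)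
    have i2 := IH A2 (c + (-1) * A i j) hs2 (hsub A2 hj2 hk2)
    have l1 := (hLB n A1 (c + 1 * A i j) hs1).2 i
    have l2 := (hLB n A2 (c + (-1) * A i j) hs2).2 i
    have n1 : 0 ≤ ex (fun x => |c + 1 * A i j + qd A1 x|) := st_ex_nonneg _
    have n2 : 0 ≤ ex (fun x => |c + (-1) * A i j + qd A2 x|) := st_ex_nonneg _
    have s1 : 0 ≤ ∑ k, ∑ l, A1 k l ^ 2 :=
      Finset.sum_nonneg (fun _ _ => Finset.sum_nonneg (fun _ _ => sq_nonneg _))
    have s2 : 0 ≤ ∑ k, ∑ l, A2 k l ^ 2 :=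
      Finset.sum_nonneg (fun _ _ => Finset.sum_nonneg (fun _ _ => sq_nonneg _))
    rw [he1 c] at i1 l1 n1
    rw [he2 c] at i2 l2 n2
    rw [hq1, hA2] at i1 s1
    rw [hq2, hA2] at i2 s2
    rw [hf1] at l1
    rw [hf2] at l2
    have ai : A i j ^ 2 ≤ infl A i :=
      Finset.single_le_sum (f := fun k => A i k ^ 2) (fun _ _ => sq_nonneg _) (Finset.mem_univ j)
    have aj : A i j ^ 2 ≤ infl A j := by
      rw [hA.1 i j]
      exact Finset.single_le_sum (f := fun k => A j k ^ 2) (fun _ _ => sq_nonneg _)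
        (Finset.mem_univ i)
    refine st_pair hPR (infl A i) (infl A j) (A i j) (bb A i j) r _
      (r + 1 * ex (fun x => |c + qd A x| * (sg x i * sg x j)))
      (r + (-1) * ex (fun x => |c + qd A x| * (sg x i * sg x j)))
      ai aj (hI2 i) (hI2 j) (st_cs A hA i j hij) hr (by ring) (by ring) n1 n2 ?_ ?_ ?_ ?_ ?_ ?_
    · linarith
    · linarith
    · linarith
    · linarith
    · linarith
    · linarith
  obtain ⟨m1, m2, m3⟩ := hSM n A hA hA2
  set g : Fin n → Fin n → ℝ := fun i j => ex (fun x => |c + qd A x| * (sg x i * sg x j)) with hg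
  set S := ∑ i, ∑ j, (if i = j then 0 else g i j) ^ 2 with hS
  have hS1 : 1 + 4 * c ^ 2 < S := by
    have h1 : 4 * c ^ 2 + 2 ≤ 4 * r ^ 2 + S := by
      rw [hA2] at hen
      exact hen
    nlinarith
  have hS2 : 81 * S ≤ 25 * (4 - ∑ i, infl A i ^ 2) := by
    rw [← m1, hS, Finset.mul_sum, Finset.mul_sum]
    refine Finset.sum_le_sum (fun i _ => ?_)
    rw [Finset.mul_sum, Finset.mul_sum]
    refine Finset.sum_le_sum (fun j _ => ?_)
    by_cases hij : i = j
    · simp [hij]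
    · rw [if_neg hij, if_neg hij]
      exact (hpair i j hij).1
  have hS3 : 200 * S ≤ 20 * (4 - ∑ i, infl A i ^ 2)
      + 35 * (∑ i, ∑ j, bb A i j ^ 2 - ∑ i, infl A i ^ 2) + 21 * (4 * ∑ i, infl A i ^ 2) := by
    rw [← m1, ← m2, ← m3, hS, Finset.mul_sum, Finset.mul_sum, Finset.mul_sum, Finset.mul_sum,
      ← Finset.sum_add_distrib, ← Finset.sum_add_distrib]
    refine Finset.sum_le_sum (fun i _ => ?_)
    rw [Finset.mul_sum, Finset.mul_sum, Finset.mul_sum, Finset.mul_sum,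
      ← Finset.sum_add_distrib, ← Finset.sum_add_distrib]
    refine Finset.sum_le_sum (fun j _ => ?_)
    by_cases hij : i = j
    · simp [hij]
    · rw [if_neg hij, if_neg hij, if_neg hij, if_neg hij]
      exact (hpair i j hij).2
  obtain ⟨lam, s, u, hl0, hl2, hs, hu, hau, hB1, hB2⟩ := hSP n A hA.1 hA2
  have hs2 : s ^ 2 = 1 := by rcases hs with h | h <;> rw [h] <;> norm_num
  have hmu : (s * lam) ^ 2 = lam ^ 2 := by rw [mul_pow, hs2, one_mul]
  obtain ⟨d1, d2⟩ := hDV n A u (s * lam) hA hA2 hI2 hu hau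
  rw [hmu] at d1 d2
  refine hFI lam c (∑ i, infl A i ^ 2) (∑ i, ∑ j, bb A i j ^ 2) S hl0 hl2
    (Finset.sum_nonneg (fun _ _ => sq_nonneg _)) hS1 (by linarith) hS3 hB1 hB2 d2 ?_
  intro h85 hc2
  have hu5 : ∀ i, u i ^ 2 ≤ 5 / 21 := by
    intro i
    have h1 := d1 i
    have h2 : 0 ≤ u i ^ 2 := sq_nonneg _
    nlinarith
  have hform : ∑ i, ∑ j, A i j * (u i * u j) = s * lam := by
    have : ∀ i, ∑ j, A i j * (u i * u j) = s * lam * u i ^ 2 := by
      intro i
      have h1 : ∑ j, A i j * (u i * u j) = u i * ∑ j, A i j * u j := by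
        rw [Finset.mul_sum]
        exact Finset.sum_congr rfl (fun j _ => by ring)
      rw [h1, hau i]; ring
    simp_rw [this]
    rw [← Finset.mul_sum, hu, mul_one]
  rcases hs with h | h
  · have := hTF n A c lam u hA hA2 hu hu5 (by rw [hform, h, one_mul]) hc2 hr.le
    linarith [le_abs_self c]
  · have hneg : SymZ (fun i j => - A i j) := ⟨fun i j => by simp only [hA.1 i j], fun i => by
      simp [hA.2 i]⟩
    have hq : ∀ x, qd (fun i j => - A i j) x = - qd A x := by
      intro x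
      unfold qd
      simp only [neg_mul, Finset.sum_neg_distrib]
      ring
    have hex : ex (fun x => |-c + qd (fun i j => - A i j) x|) = r := by
      rw [hrdef]
      congr 1
      funext x
      rw [hq, ← neg_add, abs_neg]
    have := hTF n (fun i j => - A i j) (-c) lam u hneg (by simpa using hA2) hu hu5
      (by
        simp only [neg_mul, Finset.sum_neg_distrib]
        rw [hform, h]; ring) (by simpa using hc2) (by rw [hex]; exact hr.le)
    linarith [neg_abs_le c]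

end H651CB
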